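import Pool.Agent.Lib.MP_688fd0_co.SQ6.H90.Ins

/-!
Row MERGC of board B1* (SQ6): one or two orbits in the coprime case.
-/

set_option autoImplicit false

namespace Pool.Agent.Lib.MP_688fd0_co.SQ6.H90

open Equiv Equiv.Perm Subgroup

section card

open Classical in
theorem card_coset {Q : Type*} [Group Q] [Fintype Q] (B : Subgroup Q) (a : Q) :
    (Finset.univ.filter fun q => a⁻¹ * q ∈ B).card = Nat.card B := by
  rw [Nat.card_eq_fintype_card, Fintype.card_subtype]
  apply Finset.card_bij (fun q _ => a⁻¹ * q)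
  · intro q hq; simpa using hq
  · intro q _ q' _ h; exact mul_left_cancel h
  · intro q hq; exact ⟨a * q, by simpa using hq, by group⟩

/-- one coset or two cosets have an even complement -/
theorem even_compl {Q : Type*} [Group Q] [Fintype Q] (B : Subgroup Q) (a : Q) :
    (∃ e, ∃ y : Fin (2 * e) → Q, 2 * e ≤ Nat.card Q ∧ (∀ i, a⁻¹ * y i ∉ B) ∧
      Function.Injective y ∧ ∀ q, a⁻¹ * q ∈ B ∨ ∃ i, y i = q) ∨
    (∃ a' : Q, a⁻¹ * a' ∉ B ∧ ∃ e, ∃ y : Fin (2 * e) → Q, 2 * e ≤ Nat.card Q ∧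
      (∀ i, a⁻¹ * y i ∉ B) ∧ (∀ i, a'⁻¹ * y i ∉ B) ∧
      Function.Injective y ∧ ∀ q, a⁻¹ * q ∈ B ∨ a'⁻¹ * q ∈ B ∨ ∃ i, y i = q) := by
  classical
  have hcard : ∀ (R : Finset Q), Even R.card → ∃ e, ∃ y : Fin (2 * e) → Q,
      2 * e ≤ Nat.card Q ∧ (∀ i, y i ∈ R) ∧ Function.Injective y ∧ ∀ q ∈ R, ∃ i, y i = q := by
    rintro R ⟨e, he⟩
    rw [← two_mul] at he
    refine ⟨e, fun i => ((R.equivFinOfCardEq he).symm i).1, ?_, ?_, ?_, ?_⟩
    · rw [← he, Nat.card_eq_fintype_card]; exact Finset.card_le_univ R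
    · intro i; exact ((R.equivFinOfCardEq he).symm i).2
    · intro i j hij
      exact (R.equivFinOfCardEq he).symm.injective (Subtype.ext hij)
    · intro q hq
      exact ⟨R.equivFinOfCardEq he ⟨q, hq⟩, by simp⟩
  set S1 : Finset Q := Finset.univ.filter fun q => a⁻¹ * q ∈ B with hS1
  have c1 : S1.card = Nat.card B := card_coset B a
  have cQ : Fintype.card Q = Nat.card Q := (Nat.card_eq_fintype_card).symm
  have hdvd : Nat.card B ∣ Nat.card Q := card_subgroup_dvd_card B
  have hcompl : S1ᶜ.card = Nat.card Q - Nat.card B := by rw [Finset.card_compl, c1, cQ]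
  have hpos : 0 < Nat.card B := Nat.card_pos
  by_cases hev : Even S1ᶜ.card
  · left
    obtain ⟨e, y, h1, h2, h3, h4⟩ := hcard _ hev
    refine ⟨e, y, h1, ?_, h3, ?_⟩
    · intro i h
      have := h2 i
      rw [Finset.mem_compl, hS1, Finset.mem_filter, not_and] at this
      exact this (Finset.mem_univ _) h
    · intro q
      by_cases hq : a⁻¹ * q ∈ B
      · exact Or.inl hq
      · exact Or.inr (h4 q (by rw [Finset.mem_compl, hS1, Finset.mem_filter]; simp [hq]))
  · right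
    rw [hcompl, Nat.not_even_iff_odd] at hev
    have hle : Nat.card B ≤ Nat.card Q := Nat.le_of_dvd Nat.card_pos hdvd
    have hBodd : Odd (Nat.card B) := by
      by_contra h
      rw [Nat.not_odd_iff_even] at h
      have hQe : Even (Nat.card Q) := h.trans_dvd hdvd
      have := hQe.tsub h
      exact (Nat.not_even_iff_odd.2 hev) this
    have hne : S1ᶜ.Nonempty := by
      rw [← Finset.card_pos, hcompl]
      exact hev.pos
    obtain ⟨a', ha'⟩ := hne
    have ha'' : a⁻¹ * a' ∉ B := by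
      rw [Finset.mem_compl, hS1, Finset.mem_filter, not_and] at ha'
      exact ha' (Finset.mem_univ _)
    set S2 : Finset Q := Finset.univ.filter fun q => a'⁻¹ * q ∈ B with hS2
    have c2 : S2.card = Nat.card B := card_coset B a'
    have hdis : Disjoint S1 S2 := by
      rw [Finset.disjoint_left]
      intro q h1 h2
      rw [hS1, Finset.mem_filter] at h1
      rw [hS2, Finset.mem_filter] at h2
      apply ha''
      have := B.mul_mem h1.2 (B.inv_mem h2.2)
      simpa [mul_assoc] using this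
    have hev2 : Even (S1 ∪ S2)ᶜ.card := by
      rw [Finset.card_compl, Finset.card_union_of_disjoint hdis, c1, c2, cQ, ← Nat.sub_sub]
      exact hev.tsub_odd hBodd
    obtain ⟨e, y, h1, h2, h3, h4⟩ := hcard _ hev2
    refine ⟨a', ha'', e, y, h1, ?_, ?_, h3, ?_⟩
    · intro i h
      have := h2 i
      rw [Finset.mem_compl, Finset.mem_union, not_or] at this
      exact this.1 (by rw [hS1, Finset.mem_filter]; exact ⟨Finset.mem_univ _, h⟩)
    · intro i h
      have := h2 i
      rw [Finset.mem_compl, Finset.mem_union, not_or] at this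
      exact this.2 (by rw [hS2, Finset.mem_filter]; exact ⟨Finset.mem_univ _, h⟩)
    · intro q
      by_cases hq : a⁻¹ * q ∈ B
      · exact Or.inl hq
      by_cases hq' : a'⁻¹ * q ∈ B
      · exact Or.inr (Or.inl hq')
      · refine Or.inr (Or.inr (h4 q ?_))
        rw [Finset.mem_compl, Finset.mem_union, not_or, hS1, hS2, Finset.mem_filter,
          Finset.mem_filter]
        simp [hq, hq']

end card

section part

variable {H : Type*} [Group H] {C I : Subgroup H}

/-- `S` is a transversal of `C` over the classes in `Z` -/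
def Part (C D : Subgroup H) (S : Set H) (Z : Set (H ⧸ D)) : Prop :=
  (∀ x ∈ S, (QuotientGroup.mk x : H ⧸ D) ∈ Z) ∧
    (∀ x, (QuotientGroup.mk x : H ⧸ D) ∈ Z → ∃ t ∈ S, t⁻¹ * x ∈ C) ∧
    (∀ t ∈ S, ∀ t' ∈ S, t⁻¹ * t' ∈ C → t = t')

theorem Part.union {D : Subgroup H} {S S' : Set H} {Z Z' : Set (H ⧸ D)} (hCD : C ≤ D)
    (h : Part C D S Z) (h' : Part C D S' Z') (hZ : ∀ q, q ∈ Z → q ∉ Z') :
    Part C D (S ∪ S') (Z ∪ Z') := by
  refine ⟨?_, ?_, ?_⟩
  · rintro x (hx | hx)
    · exact Or.inl (h.1 x hx)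
    · exact Or.inr (h'.1 x hx)
  · rintro x (hx | hx)
    · obtain ⟨t, ht, h1⟩ := h.2.1 x hx
      exact ⟨t, Or.inl ht, h1⟩
    · obtain ⟨t, ht, h1⟩ := h'.2.1 x hx
      exact ⟨t, Or.inr ht, h1⟩
  · rintro t (ht | ht) t' (ht' | ht') htt
    · exact h.2.2 t ht t' ht' htt
    · exfalso
      have e : (QuotientGroup.mk t : H ⧸ D) = QuotientGroup.mk t' :=
        QuotientGroup.eq.2 (hCD htt)
      exact hZ _ (h.1 t ht) (e ▸ h'.1 t' ht')
    · exfalso
      have e : (QuotientGroup.mk t : H ⧸ D) = QuotientGroup.mk t' :=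
        QuotientGroup.eq.2 (hCD htt)
      exact hZ _ (h.1 t' ht') (e ▸ h'.1 t ht)
    · exact h'.2.2 t ht t' ht' htt

theorem Part.iUnion {D : Subgroup H} {ι : Type*} {S : ι → Set H} {Z : ι → Set (H ⧸ D)}
    (hCD : C ≤ D) (h : ∀ i, Part C D (S i) (Z i)) (hZ : ∀ i j q, q ∈ Z i → q ∈ Z j → i = j) :
    Part C D (⋃ i, S i) (⋃ i, Z i) := by
  refine ⟨?_, ?_, ?_⟩
  · intro x hx
    obtain ⟨i, hi⟩ := Set.mem_iUnion.1 hx
    exact Set.mem_iUnion.2 ⟨i, (h i).1 x hi⟩
  · intro x hx
    obtain ⟨i, hi⟩ := Set.mem_iUnion.1 hx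
    obtain ⟨t, ht, h1⟩ := (h i).2.1 x hi
    exact ⟨t, Set.mem_iUnion.2 ⟨i, ht⟩, h1⟩
  · intro t ht t' ht' htt
    obtain ⟨i, hi⟩ := Set.mem_iUnion.1 ht
    obtain ⟨j, hj⟩ := Set.mem_iUnion.1 ht'
    have e : (QuotientGroup.mk t : H ⧸ D) = QuotientGroup.mk t' :=
      QuotientGroup.eq.2 (hCD htt)
    have hij := hZ i j _ ((h i).1 t hi) (e ▸ (h j).1 t' hj)
    subst hij
    exact (h i).2.2 t hi t' hj htt

theorem part_empty (D : Subgroup H) : Part C D ∅ ∅ :=
  ⟨fun _ h => absurd h (Set.notMem_empty _), fun _ h => absurd h (Set.notMem_empty _),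
    fun _ h => absurd h (Set.notMem_empty _)⟩

/-- a left coset `a B` of a group `B ≥ I` with `B ∩ C = 1` -/
theorem part_coset [C.Normal] [(C ⊔ I).Normal] {B : Subgroup H} (hIB : I ≤ B)
    (hBC : B ⊓ C = ⊥) (a : H) :
    Part C (C ⊔ I) {x | a⁻¹ * x ∈ B}
      {q | (QuotientGroup.mk' (C ⊔ I) a)⁻¹ * q ∈ B.map (QuotientGroup.mk' (C ⊔ I))} := by
  refine ⟨?_, ?_, ?_⟩
  · intro x hx
    exact ⟨a⁻¹ * x, hx, by simp⟩
  · rintro x ⟨p, hp, hpx⟩
    have h1 : QuotientGroup.mk' (C ⊔ I) (a * p) = QuotientGroup.mk' (C ⊔ I) x := by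
      rw [map_mul, hpx]
      show _ * (_ * QuotientGroup.mk' (C ⊔ I) x) = _
      group
    have h2 : (a * p)⁻¹ * x ∈ I ⊔ C := by
      rw [sup_comm]; exact QuotientGroup.eq.1 h1
    obtain ⟨i, hi, c, hc, hic⟩ := mem_sup_of_normal_right.1 h2
    refine ⟨a * p * i, ?_, ?_⟩
    · show a⁻¹ * (a * p * i) ∈ B
      rw [mul_assoc, inv_mul_cancel_left]; exact B.mul_mem hp (hIB hi)
    · have : (a * p * i)⁻¹ * x = c := by
        rw [mul_inv_rev, mul_assoc, ← hic]; group
      rw [this]; exact hc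
  · intro t ht t' ht' htt
    have h1 : t⁻¹ * t' ∈ B := by
      have := B.mul_mem (B.inv_mem ht) ht'
      simpa [mul_assoc] using this
    have h2 : t⁻¹ * t' ∈ B ⊓ C := ⟨h1, htt⟩
    rw [hBC, mem_bot] at h2
    exact (inv_mul_eq_one.1 h2)

/-- a block -/
theorem part_block [C.Normal] [(C ⊔ I).Normal] (hIC : I ⊓ C = ⊥) (y : H) :
    Part C (C ⊔ I) {x | y⁻¹ * x ∈ I} {(QuotientGroup.mk y : H ⧸ (C ⊔ I))} := by
  refine ⟨?_, ?_, ?_⟩
  · intro x hx
    rw [Set.mem_singleton_iff]
    refine (QuotientGroup.eq.2 ?_).symm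
    exact (le_sup_right : I ≤ C ⊔ I) hx
  · intro x hx
    rw [Set.mem_singleton_iff] at hx
    have h2 : y⁻¹ * x ∈ I ⊔ C := by
      rw [sup_comm]; exact QuotientGroup.eq.1 hx.symm
    obtain ⟨i, hi, c, hc, hic⟩ := mem_sup_of_normal_right.1 h2
    refine ⟨y * i, ?_, ?_⟩
    · show y⁻¹ * (y * i) ∈ I
      rw [inv_mul_cancel_left]; exact hi
    · have : (y * i)⁻¹ * x = c := by
        rw [mul_inv_rev, mul_assoc, ← hic]; group
      rw [this]; exact hc
  · intro t ht t' ht' htt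
    have h1 : t⁻¹ * t' ∈ I := by
      have := I.mul_mem (I.inv_mem ht) ht'
      simpa [mul_assoc] using this
    have h2 : t⁻¹ * t' ∈ I ⊓ C := ⟨h1, htt⟩
    rw [hIC, mem_bot] at h2
    exact (inv_mul_eq_one.1 h2)

end part

section asm

theorem two_of_part (orb : OrbS) {H : Type} [Group H] [Finite H] {C D : Subgroup H} (g : H)
    (hC : C.Normal) (hg : zpowers g = C) {T : Set H} (hT : Part C D T Set.univ) {τ : Perm H}
    (hfix : ∀ x, x ∉ T → τ x = x) (a b : H)
    (hτ : ∀ t ∈ T, τ.SameCycle a t ∨ τ.SameCycle b t) : Two (Equiv.mulRight g * τ) := by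
  obtain ⟨h1, h2⟩ := orb H C g T τ hC hg
    (fun x => by
      obtain ⟨t, ht, h⟩ := hT.2.1 x (Set.mem_univ _)
      refine ⟨t, ht, ?_⟩
      have := hC.conj_mem _ (C.inv_mem h) t
      simpa [mul_assoc] using this)
    (fun t ht t' ht' h => by
      refine (hT.2.2 t' ht' t ht ?_).symm
      have := hC.conj_mem _ h t'⁻¹
      simpa [mul_assoc] using this) hfix
  have h3 : ∀ x, (Equiv.mulRight g * τ).SameCycle x (τ x) := by
    intro x
    by_cases hx : x ∈ T
    · exact h1 x hx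
    · rw [hfix x hx]
  refine ⟨a, b, fun z => ?_⟩
  obtain ⟨t, ht, hz⟩ := h2 z
  rcases hτ t ht with h | h
  · exact Or.inl ((sc_lift h3 h).trans hz)
  · exact Or.inr ((sc_lift h3 h).trans hz)

theorem mv_one {H : Type*} [Group H] (V : Set H) (n : ℕ) : Mv V n 1 :=
  ⟨[], by simp, by simp, by simp⟩

theorem bound (ν e : ℕ) (he : e ≤ ν) : e * 2 ^ (40 * (ν + 2)) + 1 + 1 ≤ bdC ν := by
  have h1 : ν + 2 < 2 ^ (ν + 2) := Nat.lt_two_pow_self
  have h2 : 1 ≤ 2 ^ (40 * (ν + 2)) := Nat.one_le_two_pow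
  calc e * 2 ^ (40 * (ν + 2)) + 1 + 1 ≤ (ν + 2) * 2 ^ (40 * (ν + 2)) := by nlinarith
    _ ≤ 2 ^ (ν + 2) * 2 ^ (40 * (ν + 2)) := Nat.mul_le_mul_right _ h1.le
    _ = 2 ^ (41 * (ν + 2)) := by rw [← pow_add]; congr 1; ring
    _ ≤ bdC ν := Nat.pow_le_pow_right (by norm_num) (by omega)

theorem mergc_of (cover : CoverS) (orb : OrbS) (ins : InsS) (dih : DihS) : MergCS := by
  intro H _ _ V C g hV hC hg hcop
  haveI := hC
  have hvC : ∀ v ∈ V, zpowers v ⊓ C = ⊥ := by
    intro v hv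
    refine Subgroup.inf_eq_bot_of_coprime ?_
    rw [Nat.card_zpowers]; exact hcop v hv
  rcases cover H V C hV hC hcop with h | ⟨v, hv, h⟩ | ⟨v, hv, w, hw, h1, h2, h3, h4, h5⟩ |
    ⟨I, Y, v, hv, hIv, hD, hfull, hcov⟩
  · -- `C = ⊤`
    refine ⟨1, mv_one _ _, ?_⟩
    have hD : (C ⊔ (⊥ : Subgroup H)) = ⊤ := by rw [h, top_sup_eq]
    haveI : (C ⊔ (⊥ : Subgroup H)).Normal := by rw [hD]; infer_instance
    have hp := part_block (C := C) (I := ⊥) (bot_inf_eq C) (1 : H)
    have hZ : ({(QuotientGroup.mk (1 : H) : H ⧸ (C ⊔ (⊥ : Subgroup H)))} : Set _) = Set.univ := by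
      rw [Set.eq_univ_iff_forall]
      intro q
      obtain ⟨x, rfl⟩ := QuotientGroup.mk_surjective q
      rw [Set.mem_singleton_iff]
      exact QuotientGroup.eq.2 (by rw [hD]; exact mem_top _)
    rw [hZ] at hp
    refine two_of_part orb g hC hg hp (fun x _ => rfl) 1 1 ?_
    intro t ht
    left
    have : t = 1 := by simpa using ht
    rw [this]
  · -- one letter
    refine ⟨rho 1 v, mv_mono (mv_rho hv 1) ?_, ?_⟩
    · exact Nat.one_le_two_pow
    have hD : (C ⊔ zpowers v) = ⊤ := by rw [sup_comm]; exact h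
    haveI : (C ⊔ zpowers v).Normal := by rw [hD]; infer_instance
    have hp := part_block (C := C) (I := zpowers v) (hvC v hv) (1 : H)
    have hZ : ({(QuotientGroup.mk (1 : H) : H ⧸ (C ⊔ zpowers v))} : Set _) = Set.univ := by
      rw [Set.eq_univ_iff_forall]
      intro q
      obtain ⟨x, rfl⟩ := QuotientGroup.mk_surjective q
      rw [Set.mem_singleton_iff]
      exact QuotientGroup.eq.2 (by rw [hD]; exact mem_top _)
    rw [hZ] at hp
    exact two_of_part orb g hC hg hp (fun x hx => rho_out hx) 1 1 (fun t ht => Or.inl (rho_sc ht))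
  · exact dih H V C g v w hC hg hcop hv hw h1 h2 h3 h4 h5
  · -- a full set of representatives
    haveI := hD
    have hIC : I ⊓ C = ⊥ := by
      rw [eq_bot_iff, ← hvC v hv]
      exact inf_le_inf_right _ hIv
    haveI : Fintype (H ⧸ (C ⊔ I)) := Fintype.ofFinite _
    have hrep : ∀ q : H ⧸ (C ⊔ I), ∃ y ∈ Y, (QuotientGroup.mk y : H ⧸ (C ⊔ I)) = q := by
      intro q
      obtain ⟨x, rfl⟩ := QuotientGroup.mk_surjective q
      obtain ⟨y, hy, h⟩ := hcov x
      exact ⟨y, hy, QuotientGroup.eq.2 h⟩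
    choose rep hrepY hrepq using hrep
    set a : H := rep 1 with ha
    set B := (zpowers v).map (QuotientGroup.mk' (C ⊔ I)) with hB
    have hcardQ : Nat.card (H ⧸ (C ⊔ I)) ≤ C.index :=
      Nat.le_of_dvd (Nat.pos_of_ne_zero C.index_ne_zero_of_finite)
        (index_dvd_of_le (le_sup_left : C ≤ C ⊔ I))
    have hPa := part_coset (C := C) (I := I) hIv (hvC v hv) a
    -- the blocks
    have hmkB : ∀ b x : H, b⁻¹ * x ∈ zpowers v →
        (QuotientGroup.mk' (C ⊔ I) b)⁻¹ * QuotientGroup.mk' (C ⊔ I) x ∈ B := by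
      intro b x hx
      rw [hB]
      exact ⟨b⁻¹ * x, hx, by simp⟩
    have hfullT : ∀ x ∈ Y, ∀ y ∈ Y, ∀ z ∈ Y, x ≠ y → y ≠ z → z ≠ x →
      SQ6.Tri V (2 ^ (40 * (C.index + 2))) I x y z := hfull.2
    have main : ∀ (e : ℕ) (y : Fin (2 * e) → H ⧸ (C ⊔ I)),
        (∀ i, (QuotientGroup.mk' (C ⊔ I) a)⁻¹ * y i ∉ B) → Function.Injective y →
        ∃ f, Mv V (e * (2 ^ (40 * (C.index + 2))) + 1) f ∧
      (∀ x, a⁻¹ * x ∉ Subgroup.zpowers v → (∀ i, (rep (y i))⁻¹ * x ∉ I) → f x = x) ∧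
      (∀ x, a⁻¹ * x ∈ Subgroup.zpowers v ∨ (∃ i, (rep (y i))⁻¹ * x ∈ I) → f.SameCycle a x) := by
      intro e y hy hinj
      refine ins H V (2 ^ (40 * (C.index + 2))) I v a e (fun i => rep (y i)) hv hIv ?_ ?_ ?_
      · intro i h
        apply hy i
        have := hmkB _ _ h
        have e1 : QuotientGroup.mk' (C ⊔ I) (rep (y i)) = y i := hrepq _
        rwa [e1] at this
      · intro i j h
        apply hinj
        rw [← hrepq (y i), ← hrepq (y j)]
        exact QuotientGroup.eq.2 ((le_sup_right : I ≤ C ⊔ I) h)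
      · intro i j hij
        have hne : ∀ i, a ≠ rep (y i) := by
          intro i h
          apply hy i
          have e1 : QuotientGroup.mk' (C ⊔ I) (rep (y i)) = y i := hrepq _
          rw [← e1, ← h, inv_mul_cancel]
          exact B.one_mem
        refine hfullT a (hrepY _) _ (hrepY _) _ (hrepY _) (hne i) ?_ (hne j).symm
        intro h
        apply hij
        apply hinj
        rw [← hrepq (y i), ← hrepq (y j), h]
    have hblocks : ∀ (e : ℕ) (y : Fin (2 * e) → H ⧸ (C ⊔ I)), Function.Injective y →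
        Part C (C ⊔ I) (⋃ i, {x | (rep (y i))⁻¹ * x ∈ I}) (⋃ i, {y i}) := by
      intro e y hinj
      refine Part.iUnion le_sup_left (fun i => ?_) ?_
      · have := part_block (C := C) (I := I) hIC (rep (y i))
        rwa [hrepq] at this
      · intro i j q hi hj
        rw [Set.mem_singleton_iff] at hi hj
        exact hinj (hi.symm.trans hj)
    rcases even_compl B (QuotientGroup.mk' (C ⊔ I) a) with
      ⟨e, y, he, hy1, hy2, hy3⟩ | ⟨a'', ha'', e, y, he, hy1, hy1', hy2, hy3⟩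
    · obtain ⟨f, hf1, hf2, hf3⟩ := main e y hy1 hy2
      refine ⟨f, mv_mono hf1 ?_, ?_⟩
      · have := bound C.index e (by omega)
        omega
      have hT := Part.union le_sup_left hPa (hblocks e y hy2) (by
        intro q hq hq'
        obtain ⟨i, hi⟩ := Set.mem_iUnion.1 hq'
        rw [Set.mem_singleton_iff] at hi
        apply hy1 i
        rw [← hi]; exact hq)
      have hZ : ({q | (QuotientGroup.mk' (C ⊔ I) a)⁻¹ * q ∈ B} ∪ ⋃ i, {y i} :
          Set (H ⧸ (C ⊔ I))) = Set.univ := by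
        rw [Set.eq_univ_iff_forall]
        intro q
        rcases hy3 q with h | ⟨i, hi⟩
        · exact Or.inl h
        · exact Or.inr (Set.mem_iUnion.2 ⟨i, hi.symm⟩)
      rw [hZ] at hT
      refine two_of_part orb g hC hg hT ?_ a a ?_
      · intro x hx
        rw [Set.mem_union, not_or, Set.mem_iUnion, not_exists] at hx
        exact hf2 x hx.1 (fun i => hx.2 i)
      · rintro t (ht | ht)
        · exact Or.inl (hf3 t (Or.inl ht))
        · obtain ⟨i, hi⟩ := Set.mem_iUnion.1 ht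
          exact Or.inl (hf3 t (Or.inr ⟨i, hi⟩))
    · obtain ⟨a', rfl⟩ := QuotientGroup.mk'_surjective (C ⊔ I) a''
      obtain ⟨f, hf1, hf2, hf3⟩ := main e y hy1 hy2
      refine ⟨f * rho a' v, mv_mono (mv_mul hf1 (mv_rho hv a')) ?_, ?_⟩
      · exact bound C.index e (by omega)
      -- `f` fixes the coset of `a'`
      have hfa' : ∀ x, a'⁻¹ * x ∈ zpowers v → f x = x := by
        intro x hx
        have h1 := hmkB _ _ hx
        refine hf2 x ?_ ?_
        · intro h
          apply ha''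
          have h2 := B.mul_mem (hmkB _ _ h) (B.inv_mem h1)
          simpa [mul_assoc] using h2
        · intro i h
          apply hy1' i
          have e1 : QuotientGroup.mk' (C ⊔ I) (rep (y i)) = y i := hrepq _
          have e2 : QuotientGroup.mk' (C ⊔ I) (rep (y i)) = QuotientGroup.mk' (C ⊔ I) x :=
            QuotientGroup.eq.2 ((le_sup_right : I ≤ C ⊔ I) h)
          rw [← e1, e2]; exact h1
      have hPa' := part_coset (C := C) (I := I) hIv (hvC v hv) a'
      have hT1 := Part.union le_sup_left hPa (hblocks e y hy2) (by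
        intro q hq hq'
        obtain ⟨i, hi⟩ := Set.mem_iUnion.1 hq'
        rw [Set.mem_singleton_iff] at hi
        apply hy1 i
        rw [← hi]; exact hq)
      have hT := Part.union le_sup_left hT1 hPa' (by
        rintro q (hq | hq) hq'
        · apply ha''
          have h2 := B.mul_mem hq (B.inv_mem hq')
          simpa [mul_assoc] using h2
        · obtain ⟨i, hi⟩ := Set.mem_iUnion.1 hq
          rw [Set.mem_singleton_iff] at hi
          apply hy1' i
          rw [← hi]; exact hq')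
      have hZ : (({q | (QuotientGroup.mk' (C ⊔ I) a)⁻¹ * q ∈ B} ∪ ⋃ i, {y i}) ∪
          {q | (QuotientGroup.mk' (C ⊔ I) a')⁻¹ * q ∈ B} :
          Set (H ⧸ (C ⊔ I))) = Set.univ := by
        rw [Set.eq_univ_iff_forall]
        intro q
        rcases hy3 q with h | h | ⟨i, hi⟩
        · exact Or.inl (Or.inl h)
        · exact Or.inr h
        · exact Or.inl (Or.inr (Set.mem_iUnion.2 ⟨i, hi.symm⟩))
      rw [hZ] at hT
      have s1 : ∀ x, (f * rho a' v).SameCycle x (f x) := by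
        intro x
        by_cases hx : a'⁻¹ * x ∈ zpowers v
        · rw [hfa' x hx]
        · exact ⟨1, by rw [zpow_one, Perm.mul_apply, rho_out hx]⟩
      have s2 : ∀ x, (f * rho a' v).SameCycle x (rho a' v x) := by
        intro x
        by_cases hx : a'⁻¹ * x ∈ zpowers v
        · refine ⟨1, ?_⟩
          rw [zpow_one, Perm.mul_apply, hfa']
          rw [rho_in hx, ← mul_assoc]
          exact mul_mem hx (mem_zpowers v)
        · rw [rho_out hx]
      refine two_of_part orb g hC hg hT ?_ a a' ?_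
      · intro x hx
        rw [Set.mem_union, Set.mem_union, not_or, not_or, Set.mem_iUnion, not_exists] at hx
        rw [Perm.mul_apply, rho_out hx.2]
        exact hf2 x hx.1.1 (fun i => hx.1.2 i)
      · rintro t ((ht | ht) | ht)
        · exact Or.inl (sc_lift s1 (hf3 t (Or.inl ht)))
        · obtain ⟨i, hi⟩ := Set.mem_iUnion.1 ht
          exact Or.inl (sc_lift s1 (hf3 t (Or.inr ⟨i, hi⟩)))
        · exact Or.inr (sc_lift s2 (rho_sc ht))

theorem mergc_proof (cover : CoverS) (orb : OrbS) (dih : DihS) : MergCS :=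
  mergc_of cover orb ins dih

end asm

end Pool.Agent.Lib.MP_688fd0_co.SQ6.H90
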