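import Pool.Agent.Lib.MP_688fd0_co.SQ6.H90.Step

/-!
Local block three-cycles for an irredundant family, four points, and the growth theorem.
-/

namespace Pool.Agent.Lib.MP_688fd0_co.SQ6.H90

open Equiv Equiv.Perm Subgroup

variable {N : Type*} [Group N]

section Local

variable {P : ℕ → Perm N → Prop} {ι : Type*} {w : ι → N} {r : ℕ}

/-- irredundancy for triples: `w p` is not in the group generated by two others -/
def Irr3 (w : ι → N) : Prop :=
  ∀ p q s, p ≠ q → p ≠ s → w p ∉ closure {w q, w s}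

theorem Irr3.not (h : Irr3 w) {p q : ι} (hpq : p ≠ q) : w p ∉ zpowers (w q) := by
  intro h'
  apply h p q q hpq hpq
  have : zpowers (w q) ≤ closure {w q, w q} := by
    rw [zpowers_le]; exact subset_closure (by simp)
  exact this h'

theorem Irr3.not_mul (h : Irr3 w) {p q s : ι} (hpq : p ≠ q) (hps : p ≠ s) {i : N}
    (hi : i ∈ zpowers (w s)) : w p * i ∉ zpowers (w q) := by
  intro h'
  apply h p q s hpq hps
  have h1 : zpowers (w q) ≤ closure {w q, w s} := by
    rw [zpowers_le]; exact subset_closure (by simp)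
  have h2 : zpowers (w s) ≤ closure {w q, w s} := by
    rw [zpowers_le]; exact subset_closure (by simp)
  exact ((Subgroup.mul_mem_cancel_right _ (h2 hi)).1 (h1 h'))

/-- cost of the local three-cycles -/
def lc (r : ℕ) : ℕ → ℕ
  | 0 => 2 * r
  | n + 1 => 2 * lc r n + r

theorem lc_le (r n : ℕ) : lc r n + r ≤ 2 ^ n * (3 * r) := by
  induction n with
  | zero => simp only [lc, pow_zero]; omega
  | succ n ih => simp only [lc, pow_succ]; linarith

theorem local_tri [DecidableEq ι] (hr0 : ∀ x p q, P (2 * r) (rho x (w p) * rho x (w q) * (rho x (w p))⁻¹ * (rho x (w q))⁻¹))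
    (hr : ∀ x p n g, P n g → P (2 * n + r) (g * rho x (w p) * g⁻¹ * (rho x (w p))⁻¹)) (hI : Irr3 w) (y : N) (p : ι) :
    ∀ (n : ℕ) (T : Finset ι), T.card = n + 1 → p ∉ T → ∀ q ∈ T,
      Tri P (zpowers (w p) ⊓ T.inf fun s => zpowers (w s)) (lc r n) y (y * w p)
        (y * w q) := by
  intro n
  induction n with
  | zero =>
    intro T hT hp q hq
    have hT' : T = {q} := by
      obtain ⟨a, rfl⟩ := Finset.card_eq_one.1 hT
      rw [Finset.mem_singleton] at hq
      rw [hq]
    subst hT'
    rw [Finset.mem_singleton] at hp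
    have hpq : p ≠ q := hp
    rw [Finset.inf_singleton]
    exact ⟨_, hr0 y p q,
      tri0 y (hI.not hpq) (hI.not (Ne.symm hpq))⟩
  | succ n ih =>
    intro T hT hp q hq
    have hc : (T.erase q).card = n + 1 := by
      rw [Finset.card_erase_of_mem hq, hT]; omega
    have hp' : p ∉ T.erase q := fun h => hp (Finset.mem_of_mem_erase h)
    have hne : (T.erase q).Nonempty := by rw [← Finset.card_pos, hc]; omega
    obtain ⟨s, hs⟩ := hne
    obtain ⟨θ, h1, h2⟩ := ih (T.erase q) hc hp' s hs
    have hpq : p ≠ q := fun h => hp (h ▸ hq)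
    have hps : p ≠ s := fun h => hp' (h ▸ hs)
    have hsq : s ≠ q := Finset.ne_of_mem_erase hs
    have e : zpowers (w p) ⊓ (T.inf fun s => zpowers (w s)) =
        (zpowers (w p) ⊓ (T.erase q).inf fun s => zpowers (w s)) ⊓ zpowers (w q) := by
      conv_lhs => rw [← Finset.insert_erase hq, Finset.inf_insert]
      rw [inf_assoc, inf_comm (zpowers (w q))]
    rw [e]
    refine ⟨_, ?_, tri_step (u := w q) h2 ?_ ?_ ?_⟩
    · exact hr y q _ _ h1
    · intro i hi
      refine hI.not_mul hpq hps ?_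
      exact (Finset.inf_le hs : (T.erase q).inf (fun s => zpowers (w s)) ≤ zpowers (w s))
        (Subgroup.mem_inf.1 hi).2
    · intro i hi
      exact hI.not_mul hsq hps.symm (Subgroup.mem_inf.1 hi).1
    · intro h'
      exact hI.not (Ne.symm hpq) (Subgroup.mem_inf.1 h').1

end Local

section Four

variable {P : ℕ → Perm N → Prop} {I : Subgroup N} {K L : ℕ} {x a b c : N}

/-- four points from two three-cycles with two common points -/
theorem full_four [DecidableEq N] (hP : CostP P) (h1 : Tri P I L x a b) (h2 : Tri P I L x a c)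
    (hbc : b⁻¹ * c ∉ I) : Full P I (3 * L) {x, a, b, c} := by
  have t1 : Tri P I (3 * L) x a b := h1.mono hP (by omega)
  have t2 : Tri P I (3 * L) x a c := h2.mono hP (by omega)
  have t3 : Tri P I (3 * L) x b c := (Tri.two hP (h1.inv hP) (h2.inv hP) hbc).mono hP (by omega)
  have t4 : Tri P I (3 * L) a b c := (Tri.two hP h1.rot h2.rot hbc).mono hP (by omega)
  obtain ⟨_, -, u1⟩ := t1
  obtain ⟨_, -, u2⟩ := t2
  have n1 : x⁻¹ * a ∉ I := u1.xy
  have n2 : a⁻¹ * b ∉ I := u1.yz
  have n3 : b⁻¹ * x ∉ I := u1.zx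
  have n4 : a⁻¹ * c ∉ I := u2.yz
  have n5 : c⁻¹ * x ∉ I := u2.zx
  have m1 := inv_notMem_of n1
  have m2 := inv_notMem_of n2
  have m3 := inv_notMem_of n3
  have m4 := inv_notMem_of n4
  have m5 := inv_notMem_of n5
  have m6 := inv_notMem_of hbc
  have t1 : Tri P I (3 * L) x a b := h1.mono hP (by omega)
  have t2 : Tri P I (3 * L) x a c := h2.mono hP (by omega)
  refine ⟨?_, ?_⟩
  · intro p hp q hq hpq
    simp only [Finset.mem_insert, Finset.mem_singleton] at hp hq
    rcases hp with rfl | rfl | rfl | rfl <;> rcases hq with rfl | rfl | rfl | rfl <;>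
      first
      | rfl
      | exact absurd hpq ‹_›
  · intro p hp q hq s hs hpq hqs hsp
    simp only [Finset.mem_insert, Finset.mem_singleton] at hp hq hs
    rcases hp with rfl | rfl | rfl | rfl <;> rcases hq with rfl | rfl | rfl | rfl <;>
      first
      | exact absurd rfl hpq
      | (rcases hs with rfl | rfl | rfl | rfl <;>
        first
        | exact absurd rfl hqs
        | exact absurd rfl hsp
        | exact t1
        | exact t1.rot
        | exact t1.rot.rot
        | exact t1.inv hP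
        | exact (t1.inv hP).rot
        | exact (t1.inv hP).rot.rot
        | exact t2
        | exact t2.rot
        | exact t2.rot.rot
        | exact t2.inv hP
        | exact (t2.inv hP).rot
        | exact (t2.inv hP).rot.rot
        | exact t3
        | exact t3.rot
        | exact t3.rot.rot
        | exact t3.inv hP
        | exact (t3.inv hP).rot
        | exact (t3.inv hP).rot.rot
        | exact t4
        | exact t4.rot
        | exact t4.rot.rot
        | exact t4.inv hP
        | exact (t4.inv hP).rot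
        | exact (t4.inv hP).rot.rot)

end Four

section Growth

variable {P : ℕ → Perm N → Prop} {I D : Subgroup N} {K L : ℕ}

/-- `g` is covered by `Y` modulo `D` -/
def Cov (D : Subgroup N) (Y : Finset N) (g : N) : Prop := ∃ y ∈ Y, y⁻¹ * g ∈ D

theorem Cov.mul_right {Y : Finset N} {g d : N} (h : Cov D Y g) (hd : d ∈ D) :
    Cov D Y (g * d) := by
  obtain ⟨y, hy, h⟩ := h
  exact ⟨y, hy, by rw [← mul_assoc]; exact D.mul_mem h hd⟩

/-- if `Y` does not cover everything, some `y w` is not covered -/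
theorem exists_uncovered [Finite N] [D.Normal] {W : Set N} (hgen : closure W ⊔ D = ⊤)
    {Y : Finset N} (hY : Y.Nonempty) (h : ¬ ∀ g, Cov D Y g) :
    ∃ y ∈ Y, ∃ w ∈ W, ¬ Cov D Y (y * w) := by
  by_contra hc
  push Not at hc
  apply h
  -- the set of covered elements is closed under right multiplication with `W`
  have h1 : ∀ w ∈ W, ∀ g, Cov D Y g → Cov D Y (g * w) := by
    rintro w hw g ⟨y, hy, hg⟩
    have e : g * w = y * w * (w⁻¹ * (y⁻¹ * g) * w) := by group
    rw [e]
    refine (hc y hy w hw).mul_right ?_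
    have := ‹D.Normal›.conj_mem _ hg w⁻¹
    simpa using this
  let S : Set N := {g | Cov D Y g}
  have h2 : ∀ w ∈ W, ∀ g, Cov D Y (g * w) → Cov D Y g := by
    intro w hw g hg
    have hinj : Function.Injective (fun g : S => (⟨g.1 * w, h1 w hw g.1 g.2⟩ : S)) := by
      intro a b hab
      apply Subtype.ext
      have := congrArg Subtype.val hab
      exact mul_right_cancel this
    have hsurj := Finite.surjective_of_injective hinj
    obtain ⟨a, ha⟩ := hsurj ⟨g * w, hg⟩
    have := congrArg Subtype.val ha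
    have e : a.1 = g := mul_right_cancel this
    rw [← e]; exact a.2
  let H : Subgroup N :=
    { carrier := {h | ∀ g, Cov D Y g ↔ Cov D Y (g * h)}
      one_mem' := fun g => by simp
      mul_mem' := fun {a b} ha hb g => by
        rw [ha g, hb (g * a), mul_assoc]
      inv_mem' := fun {a} ha g => by
        have := ha (g * a⁻¹)
        rw [inv_mul_cancel_right] at this
        exact this.symm }
  have hW : W ⊆ H := fun w hw g => ⟨h1 w hw g, h2 w hw g⟩
  have hD : D ≤ H := fun d hd g => ⟨fun h => h.mul_right hd, fun h => by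
    have := h.mul_right (D.inv_mem hd)
    rwa [mul_inv_cancel_right] at this⟩
  have hT : (⊤ : Subgroup N) ≤ H := by
    rw [← hgen]; exact sup_le ((closure_le _).2 hW) hD
  intro g
  obtain ⟨y, hy⟩ := hY
  have hy1 : Cov D Y y := ⟨y, hy, by simp⟩
  have := (hT (mem_top (y⁻¹ * g)) y).1 hy1
  rwa [mul_inv_cancel_left] at this

/-- one growth step -/
theorem grow_step [DecidableEq N] (hP : CostP P) {Y : Finset N}
    (h : Full P I K Y) (hY : 4 ≤ Y.card) {a b c : N} (ha : a ∈ Y)
    (h1 : Tri P I K a b c) (hb : ∀ z ∈ Y, z⁻¹ * b ∉ I) : Full P I (7 * K) (insert b Y) := by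
  have hy' : ∃ y' ∈ Y, ∀ z ∈ Y, z ≠ y' → z⁻¹ * c ∉ I := by
    by_cases hd : ∃ z ∈ Y, z⁻¹ * c ∈ I
    · obtain ⟨y', hy', h2⟩ := hd
      exact ⟨y', hy', fun z hz hzy h' => hzy (h.sep z hz y' hy' (trans_mem h' (inv_mem_of h2)))⟩
    · exact ⟨a, ha, fun z hz _ h' => hd ⟨z, hz, h'⟩⟩
  obtain ⟨y', hy', hy''⟩ := hy'
  obtain ⟨e, he, e1, e2, -⟩ := Full.exists_fourth hY a y' a
  obtain ⟨f, hf, f1, f2, f3⟩ := Full.exists_fourth hY a y' e
  have h2 := h.tri a ha e he f hf e1.symm f3.symm f1
  obtain ⟨θ, h3, h3'⟩ := h2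
  obtain ⟨φ, h4, h4'⟩ := h1
  have h5 := h3'.conj h4'.req
  have he' : φ e = e := h4'.fixw (h.ne ha he e1.symm) (inv_notMem_of (hb e he))
    (inv_notMem_of (hy'' e he e2))
  have hf' : φ f = f := h4'.fixw (h.ne ha hf f1.symm) (inv_notMem_of (hb f hf))
    (inv_notMem_of (hy'' f hf f2))
  rw [h4'.ax, he', hf'] at h5
  have h6 : Tri P I (3 * K) b e f := ⟨_, hP.mono _ _ _ (by omega) (hP.conj h4 h3), h5⟩
  exact (h.insert_one hP hY (fun z hz => inv_notMem_of (hb z hz)) he hf f3.symm h6).mono hP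
    (by omega)

/-- growth of a full set until it covers `N / D` -/
theorem grow_aux [Finite N] [DecidableEq N] [D.Normal] (hP : CostP P) (hID : I ≤ D)
    {W : Set N} (hgen : closure W ⊔ D = ⊤) (hloc : ∀ y, ∀ w ∈ W, ∃ d, Tri P I L y (y * w) d) :
    ∀ (n : ℕ) (Y : Finset N) (K : ℕ), Full P I K Y → 4 ≤ Y.card → L ≤ K →
      Nat.card {q : N ⧸ D // ¬ ∃ y ∈ Y, (QuotientGroup.mk y : N ⧸ D) = q} ≤ n →
      ∃ Y' : Finset N, Y ⊆ Y' ∧ Y'.card ≤ Y.card + n ∧ Full P I (7 ^ n * K) Y' ∧
        ∀ g, Cov D Y' g := by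
  intro n
  induction n with
  | zero =>
    intro Y K h hY _ hn
    refine ⟨Y, subset_rfl, by omega, by simpa using h, ?_⟩
    intro g
    by_contra hg
    have : Nat.card {q : N ⧸ D // ¬ ∃ y ∈ Y, (QuotientGroup.mk y : N ⧸ D) = q} = 0 := by omega
    rw [Nat.card_eq_zero] at this
    rcases this with h1 | h1
    · apply h1.false
      refine ⟨(QuotientGroup.mk g : N ⧸ D), ?_⟩
      rintro ⟨y, hy, e⟩
      exact hg ⟨y, hy, QuotientGroup.eq.1 e⟩
    · exact h1.false
  | succ n ih =>
    intro Y K h hY hLK hn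
    by_cases hall : ∀ g, Cov D Y g
    · refine ⟨Y, subset_rfl, by omega, h.mono hP ?_, hall⟩
      exact Nat.le_mul_of_pos_left _ (by positivity)
    have hne : Y.Nonempty := by rw [← Finset.card_pos]; omega
    obtain ⟨y, hy, w, hw, hcov⟩ := exists_uncovered hgen hne hall
    obtain ⟨d, hd⟩ := hloc y w hw
    have hfull := grow_step hP h hY hy (hd.mono hP hLK) (b := y * w)
      (fun z hz h' => hcov ⟨z, hz, hID h'⟩)
    have hsub : Y ⊆ insert (y * w) Y := Finset.subset_insert _ _
    have hlt : Nat.card {q : N ⧸ D // ¬ ∃ y' ∈ insert (y * w) Y,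
          (QuotientGroup.mk y' : N ⧸ D) = q} <
        Nat.card {q : N ⧸ D // ¬ ∃ y ∈ Y, (QuotientGroup.mk y : N ⧸ D) = q} := by
      have hss : {q : N ⧸ D | ¬ ∃ y' ∈ insert (y * w) Y, (QuotientGroup.mk y' : N ⧸ D) = q} ⊂
          {q : N ⧸ D | ¬ ∃ y ∈ Y, (QuotientGroup.mk y : N ⧸ D) = q} := by
        refine ⟨fun q hq h' => hq ?_, fun hss => ?_⟩
        · obtain ⟨z, hz, e⟩ := h'
          exact ⟨z, hsub hz, e⟩
        · have h1 : (QuotientGroup.mk (y * w) : N ⧸ D) ∈
              {q : N ⧸ D | ¬ ∃ y ∈ Y, (QuotientGroup.mk y : N ⧸ D) = q} := by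
            rintro ⟨z, hz, e⟩
            exact hcov ⟨z, hz, QuotientGroup.eq.1 e⟩
          exact hss h1 ⟨y * w, Finset.mem_insert_self _ _, rfl⟩
      exact Set.ncard_lt_ncard hss (Set.toFinite _)
    obtain ⟨Y2, hsub2, hcard2, hfull2, hcov2⟩ := ih (insert (y * w) Y) (7 * K) hfull
      (hY.trans (Finset.card_le_card hsub)) (by omega) (by omega)
    have hci := Finset.card_insert_le (y * w) Y
    refine ⟨Y2, hsub.trans hsub2, by omega, ?_, hcov2⟩
    rw [pow_succ, mul_assoc]; exact hfull2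

end Growth

end Pool.Agent.Lib.MP_688fd0_co.SQ6.H90
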