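import Pool.Agent.Lib.MP_688fd0_co.SQ6.Iface
import Pool.Agent.Lib.MP_688fd0_co.SQ6.H90.Grow

/-!
Rows COMM, LOC, QUAD, GROW, COVER of board B1* (SQ6).
-/

set_option autoImplicit false

namespace Pool.Agent.Lib.MP_688fd0_co.SQ6.H90

open Equiv Equiv.Perm Subgroup

section conv

variable {H : Type*} [Group H] {V : Set H} {I : Subgroup H} {a b c : H} {f : Perm H} {n : ℕ}

theorem of79 (h : SQ6.IsTri I a b c f) : IsTri I f a b c :=
  ⟨h.ab, h.bc, h.ca, h.fa, h.fb, h.fc, h.fx⟩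

theorem to79 (h : IsTri I f a b c) : SQ6.IsTri I a b c f :=
  ⟨h.xy, h.yz, h.zx, h.hx, h.hy, h.hz, h.fix⟩

/-- the cost predicate: the permutation and its inverse are products of at most `n` moves -/
def Pm (V : Set H) (n : ℕ) (f : Perm H) : Prop := Mv V n f ∧ Mv V n f⁻¹

theorem mv_mul {m : ℕ} {g : Perm H} (hf : Mv V n f) (hg : Mv V m g) : Mv V (n + m) (f * g) := by
  obtain ⟨l, h1, h2, h3⟩ := hf
  obtain ⟨l', h1', h2', h3'⟩ := hg
  refine ⟨l ++ l', ?_, ?_, ?_⟩
  · rw [List.length_append]; omega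
  · intro x hx
    rw [List.mem_append] at hx
    rcases hx with hx | hx
    · exact h2 x hx
    · exact h2' x hx
  · rw [List.prod_append, h3, h3']

theorem mv_mono {m : ℕ} (hf : Mv V n f) (h : n ≤ m) : Mv V m f := by
  obtain ⟨l, h1, h2, h3⟩ := hf
  exact ⟨l, h1.trans h, h2, h3⟩

theorem costPm (V : Set H) : CostP (Pm V) where
  mul a b g h hg hh := ⟨mv_mul hg.1 hh.1, by
    rw [mul_inv_rev]; exact mv_mono (mv_mul hh.2 hg.2) (by omega)⟩
  inv a g hg := ⟨hg.2, by rw [inv_inv]; exact hg.1⟩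
  mono a b g hab hg := ⟨mv_mono hg.1 hab, mv_mono hg.2 hab⟩

theorem tri_iff : SQ6.Tri V n I a b c ↔ Tri (Pm V) I n a b c :=
  ⟨fun ⟨f, h1, h2, h3⟩ => ⟨f, ⟨h2, h3⟩, of79 h1⟩, fun ⟨f, h1, h2⟩ => ⟨f, to79 h2, h1.1, h1.2⟩⟩

theorem full_iff {Y : Finset H} : SQ6.Full V n I Y ↔ Full (Pm V) I n Y := by
  constructor
  · rintro ⟨h1, h2⟩
    exact ⟨h1, fun x hx y hy z hz a b c => tri_iff.1 (h2 x hx y hy z hz a b c)⟩
  · rintro ⟨h1, h2⟩
    exact ⟨h1, fun x hx y hy z hz a b c => tri_iff.2 (h2 x hx y hy z hz a b c)⟩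

theorem cl_coset (x v : H) : Cl v {p | x⁻¹ * p ∈ zpowers v} := by
  intro p
  simp only [Set.mem_setOf_eq, ← mul_assoc]
  exact Subgroup.mul_mem_cancel_right _ (mem_zpowers v)

theorem rho_eq (x v : H) : rho x v = rot v {p | x⁻¹ * p ∈ zpowers v} (cl_coset x v) := by
  apply Equiv.ext
  intro p
  by_cases hp : x⁻¹ * p ∈ zpowers v
  · rw [rho_in hp]
    show _ = @ite _ _ _ _ _
    rw [if_pos (show p ∈ {p | x⁻¹ * p ∈ zpowers v} from hp)]
  · rw [rho_out hp]
    show _ = @ite _ _ _ _ _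
    rw [if_neg (show p ∉ {p | x⁻¹ * p ∈ zpowers v} from hp)]

theorem mv_rho {v : H} (hv : v ∈ V) (x : H) : Mv V 1 (rho x v) :=
  ⟨[rho x v], by simp, by
    intro g hg
    rw [List.mem_singleton] at hg
    exact ⟨v, hv, _, cl_coset x v, hg.trans (rho_eq x v)⟩, by simp⟩

theorem mv_pow {g : Perm H} (hg : Mv V 1 g) : ∀ k : ℕ, Mv V k (g ^ k)
  | 0 => ⟨[], by simp, by simp, by simp⟩
  | k + 1 => by rw [pow_succ]; exact mv_mul (mv_pow hg k) hg

theorem rho_pow_in {x v p : H} (h : x⁻¹ * p ∈ zpowers v) (k : ℕ) :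
    (rho x v ^ k) p = p * v ^ k := by
  induction k with
  | zero => simp
  | succ k ih =>
    rw [pow_succ', Perm.mul_apply, ih, rho_in, mul_assoc, ← pow_succ]
    rw [← mul_assoc]; exact mul_mem h (pow_mem (mem_zpowers v) k)

theorem rho_pow_out {x v p : H} (h : x⁻¹ * p ∉ zpowers v) (k : ℕ) :
    (rho x v ^ k) p = p := by
  induction k with
  | zero => simp
  | succ k ih => rw [pow_succ', Perm.mul_apply, ih, rho_out h]

theorem rho_pow_order (x v : H) : rho x v ^ (orderOf v) = 1 := by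
  apply Equiv.ext
  intro p
  by_cases hp : x⁻¹ * p ∈ zpowers v
  · rw [rho_pow_in hp, pow_orderOf_eq_one, mul_one]; rfl
  · rw [rho_pow_out hp]; rfl

theorem mv_rho_inv [Finite H] {v : H} (hv : v ∈ V) (x : H) : Mv V (orderOf v - 1) (rho x v)⁻¹ := by
  have h : 0 < orderOf v := orderOf_pos v
  have e : (rho x v)⁻¹ = rho x v ^ (orderOf v - 1) := by
    rw [inv_eq_iff_mul_eq_one, ← pow_succ', Nat.sub_add_cancel h, rho_pow_order]
  rw [e]
  exact mv_pow (mv_rho hv x) _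

end conv

theorem comm : CommS := by
  intro H _ I f g a hf hg hfg h1 h2
  apply to79
  have key1 : ∀ i ∈ I, f (a * i) ≠ a * i := by
    intro i hi h
    rw [hf a i hi] at h
    apply h1
    rw [mul_right_cancel h]; simp
  have key2 : ∀ i ∈ I, g (a * i) ≠ a * i := by
    intro i hi h
    rw [hg a i hi] at h
    apply h2
    rw [mul_right_cancel h]; simp
  have hf1 : ∀ i ∈ I, f (f a * i) ≠ f a * i := by
    intro i hi h
    rw [← hf a i hi] at h
    exact key1 i hi (f.injective h)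
  have hg1 : ∀ i ∈ I, g (g a * i) ≠ g a * i := by
    intro i hi h
    rw [← hg a i hi] at h
    exact key2 i hi (g.injective h)
  have n1 : ∀ i ∈ I, a⁻¹ * (f a * i) ∉ I := by
    intro i hi h
    rw [← mul_assoc] at h
    exact h1 ((I.mul_mem_cancel_right hi).1 h)
  have n2 : ∀ i ∈ I, a⁻¹ * (g a * i) ∉ I := by
    intro i hi h
    rw [← mul_assoc] at h
    exact h2 ((I.mul_mem_cancel_right hi).1 h)
  refine comm_tri {x | f x ≠ x} {x | g x ≠ x} (fun p hp => by simpa using hp)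
    (fun p hp => by simpa using hp) hfg h1 ?_ (inv_notMem_of h2) (hf a) (hg a) ?_ ?_ ?_ ?_
  · intro h
    have e : g a = f a * ((f a)⁻¹ * g a) := by group
    have h3 := hfg (g a) (by rw [e]; exact hf1 _ h) (by simpa using hg1 1 I.one_mem)
    exact h2 h3
  · intro i hi h
    exact n1 i hi (hfg _ (hf1 i hi) h)
  · intro i hi h
    exact n2 i hi (hfg _ h (hg1 i hi))
  · intro i hi h
    have h3 : f (f⁻¹ (a * i)) ≠ f⁻¹ (a * i) := by
      rw [aii]; intro h'
      have : f (a * i) = a * i := by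
        conv_lhs => rw [h']
        exact aii f _
      exact key1 i hi this
    have h4 := hfg _ h3 h
    have h5 : f (a * (a⁻¹ * f⁻¹ (a * i))) = f a * (a⁻¹ * f⁻¹ (a * i)) := hf a _ h4
    rw [mul_inv_cancel_left, aii] at h5
    apply h1
    have h6 : a⁻¹ * f a = i * (a⁻¹ * f⁻¹ (a * i))⁻¹ := by
      rw [eq_mul_inv_iff_mul_eq, mul_assoc, ← h5]; group
    rw [h6]; exact I.mul_mem hi (I.inv_mem h4)
  · intro i hi h
    have h3 : g (g⁻¹ (a * i)) ≠ g⁻¹ (a * i) := by
      rw [aii]; intro h'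
      have : g (a * i) = a * i := by
        conv_lhs => rw [h']
        exact aii g _
      exact key2 i hi this
    have h4 := hfg _ h h3
    have h5 : g (a * (a⁻¹ * g⁻¹ (a * i))) = g a * (a⁻¹ * g⁻¹ (a * i)) := hg a _ h4
    rw [mul_inv_cancel_left, aii] at h5
    apply h2
    have h6 : a⁻¹ * g a = i * (a⁻¹ * g⁻¹ (a * i))⁻¹ := by
      rw [eq_mul_inv_iff_mul_eq, mul_assoc, ← h5]; group
    rw [h6]; exact I.mul_mem hi (I.inv_mem h4)

theorem quad : QuadS := by
  intro H _ _ V n I a b c d h1 h2 hbc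
  rw [tri_iff] at h1 h2
  rw [full_iff]
  have h3 := full_four (costPm V) h1.rot.rot h2.rot.rot hbc
  have e : ({a, b, c, d} : Finset H) = {d, a, b, c} := by
    ext x; simp only [Finset.mem_insert, Finset.mem_singleton]; tauto
  rw [e]; exact h3

theorem grow : GrowS := by
  intro H _ _ V n I Y h hY a ha b c h1 hb
  rw [full_iff] at h ⊢
  rw [tri_iff] at h1
  exact (grow_step (costPm V) h hY ha h1 hb).mono (costPm V) (by omega)

section loc

variable {H : Type} [Group H] [Finite H] {V : Set H} {ν : ℕ} {ι : Type} {w : ι → H}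

theorem comm_cost0 (hw : ∀ i, w i ∈ V) (hν : ∀ i, orderOf (w i) ≤ ν) (x : H) (p q : ι) :
    Pm V (2 * ν) (rho x (w p) * rho x (w q) * (rho x (w p))⁻¹ * (rho x (w q))⁻¹) := by
  have o1 : 0 < orderOf (w p) := orderOf_pos _
  have o2 : 0 < orderOf (w q) := orderOf_pos _
  have o3 := hν p
  have o4 := hν q
  have a1 := mv_rho (hw p) x
  have a2 := mv_rho (hw q) x
  have b1 := mv_rho_inv (hw p) x
  have b2 := mv_rho_inv (hw q) x
  refine ⟨mv_mono (mv_mul (mv_mul (mv_mul a1 a2) b1) b2) (by omega), ?_⟩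
  have e : (rho x (w p) * rho x (w q) * (rho x (w p))⁻¹ * (rho x (w q))⁻¹)⁻¹ =
      rho x (w q) * rho x (w p) * (rho x (w q))⁻¹ * (rho x (w p))⁻¹ := by group
  rw [e]
  exact mv_mono (mv_mul (mv_mul (mv_mul a2 a1) b2) b1) (by omega)

theorem comm_cost (hw : ∀ i, w i ∈ V) (hν : ∀ i, orderOf (w i) ≤ ν) (x : H) (p : ι) (n : ℕ)
    (g : Perm H) (hg : Pm V n g) :
    Pm V (2 * n + ν) (g * rho x (w p) * g⁻¹ * (rho x (w p))⁻¹) := by
  have o1 : 0 < orderOf (w p) := orderOf_pos _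
  have o3 := hν p
  have a1 := mv_rho (hw p) x
  have b1 := mv_rho_inv (hw p) x
  refine ⟨mv_mono (mv_mul (mv_mul (mv_mul hg.1 a1) hg.2) b1) (by omega), ?_⟩
  have e : (g * rho x (w p) * g⁻¹ * (rho x (w p))⁻¹)⁻¹ =
      rho x (w p) * g * (rho x (w p))⁻¹ * g⁻¹ := by group
  rw [e]
  exact mv_mono (mv_mul (mv_mul (mv_mul a1 hg.1) b1) hg.2) (by omega)

theorem irr3_of (h : ∀ p, w p ∉ closure (w '' {q | q ≠ p})) : Irr3 w := by
  intro p q s hpq hps h'
  apply h p
  refine closure_mono ?_ h'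
  intro x hx
  rcases hx with rfl | hx
  · exact ⟨q, Ne.symm hpq, rfl⟩
  · rw [Set.mem_singleton_iff] at hx
    subst hx
    exact ⟨s, Ne.symm hps, rfl⟩

theorem loc_gen [Fintype ι] [DecidableEq ι] (hw : ∀ i, w i ∈ V) (hν : ∀ i, orderOf (w i) ≤ ν)
    (h : ∀ p, w p ∉ closure (w '' {q | q ≠ p})) (m : ℕ) (hm : Fintype.card ι = m + 2) (p q : ι)
    (hpq : p ≠ q) (a : H) :
    Tri (Pm V) (⨅ s, zpowers (w s)) (2 ^ (m + 2) * ν) a (a * w p) (a * w q) := by
  have h1 := local_tri (P := Pm V) (r := ν) (comm_cost0 hw hν)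
    (fun x p n g hg => comm_cost hw hν x p n g hg) (irr3_of h) a p m (Finset.univ.erase p)
    (by rw [Finset.card_erase_of_mem (Finset.mem_univ _), Finset.card_univ, hm]; omega)
    (Finset.notMem_erase _ _) q (Finset.mem_erase.2 ⟨Ne.symm hpq, Finset.mem_univ _⟩)
  have e : zpowers (w p) ⊓ (Finset.univ.erase p).inf (fun s => zpowers (w s)) =
      ⨅ s, zpowers (w s) := by
    have e1 := Finset.inf_insert (s := Finset.univ.erase p) (b := p)
      (f := fun s => zpowers (w s))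
    rw [Finset.insert_erase (Finset.mem_univ _), Finset.inf_univ_eq_iInf] at e1
    exact e1.symm
  rw [e] at h1
  refine h1.mono (costPm V) ?_
  have h2 := lc_le ν m
  have h3 : 2 ^ (m + 2) * ν = 2 ^ m * (3 * ν) + 2 ^ m * ν := by ring
  omega

end loc

theorem loc : LocS := by
  intro H _ _ V ν m w hw hν h p hp a
  rw [tri_iff]
  exact loc_gen hw hν h m (by simp) p _ hp a

theorem comm_proof : CommS := comm
theorem loc_proof : LocS := loc
theorem quad_proof : QuadS := quad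
theorem grow_proof : GrowS := grow

end Pool.Agent.Lib.MP_688fd0_co.SQ6.H90
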