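import Pool.Agent.Lib.MP_688fd0_co.SQ6.H90.Rows

/-!
Row INS of board B1* (SQ6): insertion of pairs of blocks into the cycle of a rotation.
-/

set_option autoImplicit false

namespace Pool.Agent.Lib.MP_688fd0_co.SQ6.H90

open Equiv Equiv.Perm Subgroup

theorem sc_lift {α : Type*} {f g : Perm α} (h : ∀ x, g.SameCycle x (f x)) {x y : α}
    (hxy : f.SameCycle x y) : g.SameCycle x y := by
  obtain ⟨i, rfl⟩ := hxy
  induction i using Int.induction_on with
  | zero => simpa using SameCycle.refl g x
  | succ i ih =>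
    have e : (f ^ ((i : ℤ) + 1)) x = f ((f ^ (i : ℤ)) x) := by
      rw [add_comm, zpow_add, zpow_one, Perm.mul_apply]
    rw [e]; exact ih.trans (h _)
  | pred i ih =>
    have e : (f ^ (-(i : ℤ))) x = f ((f ^ (-(i : ℤ) - 1)) x) := by
      rw [← Perm.mul_apply, mul_self_zpow]
      congr 2; ring
    rw [e] at ih
    exact ih.trans (h _).symm

variable {H : Type*} [Group H]

theorem rho_sc {x v p : H} (h : x⁻¹ * p ∈ zpowers v) : (rho x v).SameCycle x p := by
  have key : ∀ k : ℤ, (rho x v).SameCycle x (x * v ^ k) := by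
    intro k
    induction k using Int.induction_on with
    | zero => simpa using SameCycle.refl (rho x v) x
    | succ i ih =>
      refine ih.trans ?_
      refine ⟨1, ?_⟩
      rw [zpow_one, rho_in (by simp), mul_assoc, zpow_add_one]
    | pred i ih =>
      refine ih.trans ?_
      refine SameCycle.symm ⟨1, ?_⟩
      rw [zpow_one, rho_in (by simpa using zpow_mem (mem_zpowers v) _), mul_assoc]
      congr 1
      rw [← zpow_add_one]; congr 1; ring
  obtain ⟨k, hk⟩ := mem_zpowers_iff.1 h
  have e : p = x * v ^ k := by rw [hk]; group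
  rw [e]; exact key k

theorem ins_step {I : Subgroup H} {f θ : Perm H} {a b c : H} (h : IsTri I θ a b c)
    (hb : ∀ j ∈ I, f (b * j) = b * j) (hc : ∀ j ∈ I, f (c * j) = c * j) :
    (∀ x, (f * θ).SameCycle x (f x)) ∧ (∀ j ∈ I, (f * θ).SameCycle (a * j) (b * j)) ∧
      (∀ j ∈ I, (f * θ).SameCycle (a * j) (c * j)) := by
  have h1 : ∀ j ∈ I, (f * θ) (a * j) = b * j := fun j hj => by
    rw [Perm.mul_apply, h.hx j hj, hb j hj]
  have h2 : ∀ j ∈ I, (f * θ) (b * j) = c * j := fun j hj => by
    rw [Perm.mul_apply, h.hy j hj, hc j hj]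
  have h3 : ∀ j ∈ I, (f * θ) (c * j) = f (a * j) := fun j hj => by
    rw [Perm.mul_apply, h.hz j hj]
  have s1 : ∀ j ∈ I, (f * θ).SameCycle (a * j) (b * j) := fun j hj =>
    ⟨1, by rw [zpow_one]; exact h1 j hj⟩
  have s2 : ∀ j ∈ I, (f * θ).SameCycle (b * j) (c * j) := fun j hj =>
    ⟨1, by rw [zpow_one]; exact h2 j hj⟩
  have s3 : ∀ j ∈ I, (f * θ).SameCycle (c * j) (f (a * j)) := fun j hj =>
    ⟨1, by rw [zpow_one]; exact h3 j hj⟩
  refine ⟨?_, s1, fun j hj => (s1 j hj).trans (s2 j hj)⟩
  intro x
  by_cases ha : a⁻¹ * x ∈ I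
  · have e : x = a * (a⁻¹ * x) := by group
    rw [e]
    exact ((s1 _ ha).trans (s2 _ ha)).trans (s3 _ ha)
  by_cases hb' : b⁻¹ * x ∈ I
  · have e : x = b * (b⁻¹ * x) := by group
    have := hb _ hb'
    rw [← e] at this
    rw [this]
  by_cases hc' : c⁻¹ * x ∈ I
  · have e : x = c * (c⁻¹ * x) := by group
    have := hc _ hc'
    rw [← e] at this
    rw [this]
  · exact ⟨1, by rw [zpow_one, Perm.mul_apply, h.fix x ha hb' hc']⟩

theorem ins : InsS := by
  intro H _ _ V n I v a e y hv hI hay hyy htri
  have key : ∀ k, k ≤ e → ∃ f : Perm H, Mv V (k * n + 1) f ∧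
      (∀ x, a⁻¹ * x ∉ zpowers v → (∀ i : Fin (2 * e), i.1 < 2 * k → (y i)⁻¹ * x ∉ I) → f x = x) ∧
      (∀ x, a⁻¹ * x ∈ zpowers v ∨ (∃ i : Fin (2 * e), i.1 < 2 * k ∧ (y i)⁻¹ * x ∈ I) →
        f.SameCycle a x) := by
    intro k
    induction k with
    | zero =>
      intro _
      refine ⟨rho a v, ?_, ?_, ?_⟩
      · rw [zero_mul, zero_add]; exact mv_rho hv a
      · intro x hx _; exact rho_out hx
      · rintro x (hx | ⟨i, hi, _⟩)
        · exact rho_sc hx
        · omega
    | succ k ih =>
      intro hk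
      obtain ⟨f, hf, hfix, hsc⟩ := ih (by omega)
      obtain ⟨θ, hθ, hθm, -⟩ := htri ⟨2 * k, by omega⟩ ⟨2 * k + 1, by omega⟩
        (by intro h; have := congrArg Fin.val h; simp at this)
      have hθ' := of79 hθ
      -- the new blocks are fixed by `f`
      have hnew : ∀ i : Fin (2 * e), 2 * k ≤ i.1 → ∀ j ∈ I, f (y i * j) = y i * j := by
        intro i hi j hj
        refine hfix _ ?_ ?_
        · intro h
          rw [← mul_assoc] at h
          exact hay i ((Subgroup.mul_mem_cancel_right _ (hI hj)).1 h)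
        · intro i' hi' h
          rw [← mul_assoc] at h
          have h1 := (Subgroup.mul_mem_cancel_right _ hj).1 h
          have h2 := hyy i' i h1
          rw [h2] at hi'
          omega
      obtain ⟨t1, t2, t3⟩ := ins_step hθ' (hnew ⟨2 * k, by omega⟩ (by simp))
        (hnew ⟨2 * k + 1, by omega⟩ (by simp))
      refine ⟨f * θ, ?_, ?_, ?_⟩
      · refine mv_mono (mv_mul hf hθm) ?_
        rw [add_mul, one_mul]; omega
      · intro x hx hi
        have hax : a⁻¹ * x ∉ I := fun h => hx (hI h)
        rw [Perm.mul_apply, hθ'.fix x hax (hi _ (by simp)) (hi _ (by simp; omega))]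
        exact hfix x hx (fun i h => hi i (by omega))
      · intro x hx
        by_cases hold : a⁻¹ * x ∈ zpowers v ∨ (∃ i : Fin (2 * e), i.1 < 2 * k ∧ (y i)⁻¹ * x ∈ I)
        · exact sc_lift t1 (hsc x hold)
        · rw [not_or] at hold
          rcases hx with hx | ⟨i, hi, hix⟩
          · exact absurd hx hold.1
          · have hi2 : 2 * k ≤ i.1 := by
              by_contra h
              exact hold.2 ⟨i, by omega, hix⟩
            have haj : (f * θ).SameCycle a (a * ((y i)⁻¹ * x)) :=
              sc_lift t1 (hsc _ (Or.inl (by rw [inv_mul_cancel_left]; exact hI hix)))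
            have ex : y i * ((y i)⁻¹ * x) = x := by group
            have hcase : i = ⟨2 * k, by omega⟩ ∨ i = ⟨2 * k + 1, by omega⟩ := by
              rcases Nat.lt_or_ge (2 * k) i.1 with h | h
              · right; apply Fin.ext; simp only; omega
              · left; apply Fin.ext; simp only; omega
            rcases hcase with h | h
            · have := t2 _ hix
              rw [← h, ex] at this
              exact haj.trans this
            · have := t3 _ hix
              rw [← h, ex] at this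
              exact haj.trans this
  obtain ⟨f, h1, h2, h3⟩ := key e le_rfl
  refine ⟨f, h1, fun x hx hi => h2 x hx (fun i _ => hi i), fun x hx => h3 x ?_⟩
  rcases hx with hx | ⟨i, hi⟩
  · exact Or.inl hx
  · exact Or.inr ⟨i, i.2, hi⟩

theorem ins_proof : InsS := ins

end Pool.Agent.Lib.MP_688fd0_co.SQ6.H90
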