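import Pool.Agent.Lib.MP_688fd0_co.SQ6.H90.Tri

/-!
Rotations `rho x v` of one left coset `x ⟨v⟩` and the local block three-cycles
`<x, x v, x w>_I` (iterated commutators of rotations).
-/

namespace Pool.Agent.Lib.MP_688fd0_co.SQ6.H90

open Equiv Equiv.Perm Subgroup

variable {N : Type*} [Group N]

open Classical in
/-- the rotation of the left coset `x ⟨v⟩` by right multiplication with `v` -/
noncomputable def rho (x v : N) : Perm N where
  toFun p := if x⁻¹ * p ∈ zpowers v then p * v else p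
  invFun p := if x⁻¹ * p ∈ zpowers v then p * v⁻¹ else p
  left_inv p := by
    by_cases h : x⁻¹ * p ∈ zpowers v
    · have h' : x⁻¹ * (p * v) ∈ zpowers v := by
        rw [← mul_assoc]; exact mul_mem h (mem_zpowers v)
      simp only [h, h', if_true]; group
    · simp only [h, if_false]
  right_inv p := by
    by_cases h : x⁻¹ * p ∈ zpowers v
    · have h' : x⁻¹ * (p * v⁻¹) ∈ zpowers v := by
        rw [← mul_assoc]; exact mul_mem h (inv_mem (mem_zpowers v))
      simp only [h, h', if_true]; group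
    · simp only [h, if_false]

theorem rho_in {x v p : N} (h : x⁻¹ * p ∈ zpowers v) : rho x v p = p * v := by
  classical
  show (if x⁻¹ * p ∈ zpowers v then p * v else p) = _
  rw [if_pos h]

theorem rho_out {x v p : N} (h : x⁻¹ * p ∉ zpowers v) : rho x v p = p := by
  classical
  show (if x⁻¹ * p ∈ zpowers v then p * v else p) = _
  rw [if_neg h]

theorem rho_inv_in {x v p : N} (h : x⁻¹ * p ∈ zpowers v) : (rho x v)⁻¹ p = p * v⁻¹ := by
  classical
  show (if x⁻¹ * p ∈ zpowers v then p * v⁻¹ else p) = _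
  rw [if_pos h]

theorem rho_inv_out {x v p : N} (h : x⁻¹ * p ∉ zpowers v) : (rho x v)⁻¹ p = p := by
  classical
  show (if x⁻¹ * p ∈ zpowers v then p * v⁻¹ else p) = _
  rw [if_neg h]

theorem zcomm {v i : N} (hi : i ∈ zpowers v) : i * v = v * i := by
  obtain ⟨k, rfl⟩ := mem_zpowers_iff.1 hi
  exact ((Commute.refl v).zpow_left k).eq

theorem rho_mul {x v i : N} (hi : i ∈ zpowers v) : rho x v (x * i) = x * v * i := by
  rw [rho_in (by simpa using hi), mul_assoc, zcomm hi, mul_assoc]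

theorem rho_inv_mul {x v i : N} (hi : i ∈ zpowers v) : (rho x v)⁻¹ (x * i) = x * v⁻¹ * i := by
  rw [rho_inv_in (by simpa using hi), mul_assoc]
  have : i * v⁻¹ = v⁻¹ * i := by
    have h := zcomm hi
    calc i * v⁻¹ = v⁻¹ * (v * i) * v⁻¹ := by group
      _ = v⁻¹ * (i * v) * v⁻¹ := by rw [h]
      _ = v⁻¹ * i := by group
  rw [this, mul_assoc]

theorem rho_req {x v : N} {I : Subgroup N} (hI : I ≤ zpowers v) : REq I (rho x v) := by
  intro p i hi
  by_cases h : x⁻¹ * p ∈ zpowers v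
  · rw [rho_in h, rho_in (by rw [← mul_assoc]; exact mul_mem h (hI hi)), mul_assoc,
      zcomm (hI hi), mul_assoc]
  · rw [rho_out h, rho_out]
    rw [← mul_assoc]
    intro h'
    exact h ((Subgroup.mul_mem_cancel_right _ (hI hi)).1 h')

theorem mem_left {H : Subgroup N} {a b : N} (ha : a ∈ H) : a * b ∈ H ↔ b ∈ H :=
  H.mul_mem_cancel_left ha

/-- the first local three-cycle -/
theorem tri0 {v w : N} (x : N) (hvw : v ∉ zpowers w) (hwv : w ∉ zpowers v) :
    IsTri (zpowers v ⊓ zpowers w)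
      (rho x v * rho x w * (rho x v)⁻¹ * (rho x w)⁻¹) x (x * v) (x * w) := by
  refine comm_tri {p | x⁻¹ * p ∈ zpowers v} {p | x⁻¹ * p ∈ zpowers w}
    (fun p hp => rho_out hp) (fun p hp => rho_out hp) (fun p h1 h2 => ⟨h1, h2⟩)
    ?_ ?_ ?_ ?_ ?_ ?_ ?_ ?_ ?_
  · rw [inv_mul_cancel_left]; exact fun h => hvw h.2
  · intro h
    have h1 := (Subgroup.mem_inf.1 h).1
    rw [mul_inv_rev, mul_assoc, inv_mul_cancel_left] at h1
    exact hwv ((mem_left (inv_mem (mem_zpowers v))).1 h1)
  · intro h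
    have h1 := (Subgroup.mem_inf.1 h).1
    rw [mul_inv_rev, inv_mul_cancel_right, inv_mem_iff] at h1
    exact hwv h1
  · intro i hi; exact rho_mul hi.1
  · intro i hi; exact rho_mul hi.2
  · intro i hi h
    simp only [Set.mem_setOf_eq, mul_assoc, inv_mul_cancel_left] at h
    exact hvw ((Subgroup.mul_mem_cancel_right _ hi.2).1 h)
  · intro i hi h
    simp only [Set.mem_setOf_eq, mul_assoc, inv_mul_cancel_left] at h
    exact hwv ((Subgroup.mul_mem_cancel_right _ hi.1).1 h)
  · intro i hi h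
    rw [rho_inv_mul hi.1] at h
    simp only [Set.mem_setOf_eq, mul_assoc, inv_mul_cancel_left] at h
    exact hvw (inv_mem_iff.1 ((Subgroup.mul_mem_cancel_right _ hi.2).1 h))
  · intro i hi h
    rw [rho_inv_mul hi.2] at h
    simp only [Set.mem_setOf_eq, mul_assoc, inv_mul_cancel_left] at h
    exact hwv (inv_mem_iff.1 ((Subgroup.mul_mem_cancel_right _ hi.1).1 h))

/-- the local three-cycles, next step: `<x, x v, x w>_I` and the rotation `rho x u` give
`<x, x v, x u>_{I ⊓ ⟨u⟩}`, if no element of `v I`, `w I` is in `⟨u⟩` and `u` is not in `I`. -/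
theorem tri_step {I : Subgroup N} {θ : Perm N} {x v w u : N} (h : IsTri I θ x (x * v) (x * w))
    (hv : ∀ i ∈ I, v * i ∉ zpowers u) (hw : ∀ i ∈ I, w * i ∉ zpowers u) (hu : u ∉ I) :
    IsTri (I ⊓ zpowers u) (θ * rho x u * θ⁻¹ * (rho x u)⁻¹) x (x * v) (x * u) := by
  have hv1 : v ∉ zpowers u := by simpa using hv 1 I.one_mem
  have hw1 : w ∉ zpowers u := by simpa using hw 1 I.one_mem
  -- a multiple of `u` in `v I` gives an element of `v I` in `⟨u⟩`
  have kv : ∀ g ∈ zpowers u, v⁻¹ * g ∉ I := by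
    intro g hg h'
    exact hv _ h' (by simpa using hg)
  have kw : ∀ g ∈ zpowers u, w⁻¹ * g ∉ I := by
    intro g hg h'
    exact hw _ h' (by simpa using hg)
  have key : ∀ g ∈ zpowers u, g ∉ I →
      x * g ∉ {p | x⁻¹ * p ∈ I ∨ (x * v)⁻¹ * p ∈ I ∨ (x * w)⁻¹ * p ∈ I} := by
    intro g hg hgI
    simp only [Set.mem_setOf_eq, inv_mul_cancel_left, mul_inv_rev, mul_assoc, not_or]
    exact ⟨hgI, kv g hg, kw g hg⟩
  refine comm_tri {p | x⁻¹ * p ∈ I ∨ (x * v)⁻¹ * p ∈ I ∨ (x * w)⁻¹ * p ∈ I}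
    {p | x⁻¹ * p ∈ zpowers u}
    (fun p hp => ?_) (fun p hp => rho_out hp) (fun p h1 h2 => ?_)
    ?_ ?_ ?_ ?_ ?_ ?_ ?_ ?_ ?_
  · simp only [Set.mem_setOf_eq, not_or] at hp
    exact h.fix p hp.1 hp.2.1 hp.2.2
  · rcases h1 with h1 | h1 | h1
    · exact ⟨h1, h2⟩
    · exfalso
      apply kv _ h2
      rw [mul_inv_rev, mul_assoc] at h1; exact h1
    · exfalso
      apply kw _ h2
      rw [mul_inv_rev, mul_assoc] at h1; exact h1
  · rw [inv_mul_cancel_left]; exact fun h => hv1 h.2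
  · intro h'
    apply hv1
    have h1 := (Subgroup.mem_inf.1 h').2
    rw [mul_inv_rev, mul_assoc, inv_mul_cancel_left,
      Subgroup.mul_mem_cancel_right _ (mem_zpowers u)] at h1
    exact inv_mem_iff.1 h1
  · intro h'
    apply hu
    have h1 := (Subgroup.mem_inf.1 h').1
    rw [mul_inv_rev, inv_mul_cancel_right, inv_mem_iff] at h1
    exact h1
  · intro i hi; exact h.hx i hi.1
  · intro i hi; exact rho_mul hi.2
  · intro i hi h'
    simp only [Set.mem_setOf_eq, mul_assoc, inv_mul_cancel_left] at h'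
    exact hv i hi.1 h'
  · intro i hi
    rw [mul_assoc]
    refine key _ (mul_mem (mem_zpowers u) hi.2) fun h' => hu ?_
    exact (Subgroup.mul_mem_cancel_right _ hi.1).1 h'
  · intro i hi h'
    have e : θ⁻¹ (x * i) = x * w * i := by rw [Perm.inv_eq_iff_eq, h.hz i hi.1]
    rw [e] at h'
    simp only [Set.mem_setOf_eq, mul_assoc, inv_mul_cancel_left] at h'
    exact hw i hi.1 h'
  · intro i hi
    rw [rho_inv_mul hi.2, mul_assoc]
    refine key _ (mul_mem (inv_mem (mem_zpowers u)) hi.2) fun h' => hu ?_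
    exact inv_mem_iff.1 ((Subgroup.mul_mem_cancel_right _ hi.1).1 h')

end Pool.Agent.Lib.MP_688fd0_co.SQ6.H90
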