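import Pool.Agent.Lib.MP_688fd0_co.SQ6.H90.Loc

/-!
Full sets of representatives: all block three-cycles between members of `Y` are available with
cost at most `K`; growing a full set by a local three-cycle.
-/

namespace Pool.Agent.Lib.MP_688fd0_co.SQ6.H90

open Equiv Equiv.Perm Subgroup

variable {N : Type*} [Group N]

/-- abstract cost predicate: `P n g` = `g` is a word of length at most `n` -/
structure CostP (P : ℕ → Perm N → Prop) : Prop where
  mul : ∀ a b g h, P a g → P b h → P (a + b) (g * h)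
  inv : ∀ a g, P a g → P a g⁻¹
  mono : ∀ a b g, a ≤ b → P a g → P b g

theorem CostP.conj {P : ℕ → Perm N → Prop} (hP : CostP P) {a b : ℕ} {g h : Perm N}
    (hg : P a g) (hh : P b h) : P (2 * a + b) (g * h * g⁻¹) :=
  hP.mono _ _ _ (by omega) (hP.mul _ _ _ _ (hP.mul _ _ _ _ hg hh) (hP.inv _ _ hg))

/-- the block three-cycle `<x, y, z>_I` has cost at most `K` -/
def Tri (P : ℕ → Perm N → Prop) (I : Subgroup N) (K : ℕ) (x y z : N) : Prop :=
  ∃ θ, P K θ ∧ IsTri I θ x y z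

namespace Tri

variable {P : ℕ → Perm N → Prop} {I : Subgroup N} {K L : ℕ} {x y z a b c d e : N}

theorem rot (h : Tri P I K x y z) : Tri P I K y z x := by
  obtain ⟨θ, h1, h2⟩ := h
  exact ⟨θ, h1, h2.rot⟩

theorem inv (hP : CostP P) (h : Tri P I K x y z) : Tri P I K x z y := by
  obtain ⟨θ, h1, h2⟩ := h
  exact ⟨θ⁻¹, hP.inv _ _ h1, h2.inv⟩

theorem mono (hP : CostP P) (h : Tri P I K x y z) (hK : K ≤ L) : Tri P I L x y z := by
  obtain ⟨θ, h1, h2⟩ := h
  exact ⟨θ, hP.mono _ _ _ hK h1, h2⟩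

theorem shift (h : Tri P I K x y z) {i : N} (hi : i ∈ I) :
    Tri P I K (x * i) (y * i) (z * i) := by
  obtain ⟨θ, h1, h2⟩ := h
  exact ⟨θ, h1, h2.shift hi⟩

theorem two (hP : CostP P) (h1 : Tri P I K a b d) (h2 : Tri P I L a c d) (hbc : b⁻¹ * c ∉ I) :
    Tri P I (K + 2 * L) a b c := by
  obtain ⟨θ, h1, h1'⟩ := h1
  obtain ⟨φ, h2, h2'⟩ := h2
  exact ⟨_, hP.mono _ _ _ (by omega) (hP.conj h2 (hP.inv _ _ h1)), share_two h1' h2' hbc⟩

theorem one (hP : CostP P) (h1 : Tri P I L a c d) (h2 : Tri P I K a b e)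
    (hbc : b⁻¹ * c ∉ I) (hbd : b⁻¹ * d ∉ I) (hce : c⁻¹ * e ∉ I) (hde : d⁻¹ * e ∉ I) :
    Tri P I (3 * K + 4 * L) a b c := by
  obtain ⟨φ, h1, h1'⟩ := h1
  obtain ⟨θ, h2, h2'⟩ := h2
  exact ⟨_, hP.mono _ _ _ (by omega) (hP.mul _ _ _ _ (hP.mul _ _ _ _
    (hP.conj h1 (hP.inv _ _ h2)) (hP.inv _ _ h2)) (hP.conj h1 h2)),
    share_one h1' h2' hbc hbd hce hde⟩

/-- conjugation of `<x,y,z>` by `<z, a, b>`, for `x, y` outside of the blocks of `z, a, b` -/
theorem move (hP : CostP P) (h1 : Tri P I K x y z) (h2 : Tri P I L z a b)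
    (hxa : x⁻¹ * a ∉ I) (hxb : x⁻¹ * b ∉ I) (hya : y⁻¹ * a ∉ I) (hyb : y⁻¹ * b ∉ I) :
    Tri P I (2 * L + K) x y a := by
  obtain ⟨θ, h1, h1'⟩ := h1
  obtain ⟨φ, h2, h2'⟩ := h2
  have h3 := h1'.conj h2'.req
  have hx : φ x = x := h2'.fixw h1'.zx (inv_notMem_of hxa) (inv_notMem_of hxb)
  have hy : φ y = y := h2'.fixw (inv_notMem_of h1'.yz) (inv_notMem_of hya) (inv_notMem_of hyb)
  rw [hx, hy, h2'.ax] at h3
  exact ⟨_, hP.conj h2 h1, h3⟩

end Tri

/-- all block three-cycles between members of `Y` have cost at most `K`, different members of `Y`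
are in different blocks -/
structure Full (P : ℕ → Perm N → Prop) (I : Subgroup N) (K : ℕ) (Y : Finset N) : Prop where
  sep : ∀ x ∈ Y, ∀ y ∈ Y, x⁻¹ * y ∈ I → x = y
  tri : ∀ x ∈ Y, ∀ y ∈ Y, ∀ z ∈ Y, x ≠ y → y ≠ z → z ≠ x → Tri P I K x y z

namespace Full

variable {P : ℕ → Perm N → Prop} {I : Subgroup N} {K L : ℕ} {Y : Finset N}

theorem ne (h : Full P I K Y) {x y : N} (hx : x ∈ Y) (hy : y ∈ Y) (hxy : x ≠ y) :
    x⁻¹ * y ∉ I := fun h' => hxy (h.sep x hx y hy h')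

theorem mono (hP : CostP P) (h : Full P I K Y) (hK : K ≤ L) : Full P I L Y :=
  ⟨h.sep, fun x hx y hy z hz a b c => (h.tri x hx y hy z hz a b c).mono hP hK⟩

/-- a fourth member -/
theorem exists_fourth (hY : 4 ≤ Y.card) (a b c : N) : ∃ r ∈ Y, r ≠ a ∧ r ≠ b ∧ r ≠ c := by
  classical
  have h1 : (Y \ {a, b, c}).Nonempty := by
    rw [← Finset.card_pos]
    have h2 := Finset.le_card_sdiff {a, b, c} Y
    have h3 : ({a, b, c} : Finset N).card ≤ 3 := Finset.card_le_three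
    omega
  obtain ⟨r, hr⟩ := h1
  simp only [Finset.mem_sdiff, Finset.mem_insert, Finset.mem_singleton, not_or] at hr
  exact ⟨r, hr.1, hr.2.1, hr.2.2.1, hr.2.2.2⟩

/-- change the last point -/
theorem last (hP : CostP P) (h : Full P I K Y) (hY : 4 ≤ Y.card) {c p q t : N} {M : ℕ}
    (hc : ∀ y ∈ Y, c⁻¹ * y ∉ I) (hp : p ∈ Y) (hq : q ∈ Y) (ht : t ∈ Y) (hpq : p ≠ q)
    (hpt : p ≠ t) (h1 : Tri P I M c p q) : Tri P I (M + 2 * K) c p t := by
  by_cases hqt : q = t
  · subst hqt; exact h1.mono hP (by omega)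
  · obtain ⟨r, hr, r1, r2, r3⟩ := exists_fourth hY p q t
    have h2 := h.tri q hq t ht r hr hqt r3.symm r2
    exact (h1.move hP h2 (hc t ht) (hc r hr) (h.ne hp ht hpt) (h.ne hp hr r1.symm)).mono hP
      (by omega)

/-- all three-cycles `<c, s, t>` from one of them -/
theorem spread (hP : CostP P) (h : Full P I K Y) (hY : 4 ≤ Y.card) {c p q : N} {M : ℕ}
    (hc : ∀ y ∈ Y, c⁻¹ * y ∉ I) (hp : p ∈ Y) (hq : q ∈ Y) (hpq : p ≠ q)
    (h1 : Tri P I M c p q) :
    ∀ s ∈ Y, ∀ t ∈ Y, s ≠ t → Tri P I (M + 4 * K) c s t := by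
  intro s hs t ht hst
  by_cases htp : t = p
  · subst htp
    -- `<c, t, q>`, its inverse is `<c, q, t>`, and `<c, t, q> → <c, t, s> → <c, s, t>`
    have h2 := h.last hP hY hc hp hq hs hpq (Ne.symm hst) h1
    exact (h2.inv hP).mono hP (by omega)
  · have h2 := h.last hP hY hc hp hq ht hpq (Ne.symm htp) h1
    have h3 := h.last hP hY hc ht hp hs (htp) (Ne.symm hst) (h2.inv hP)
    exact (h3.inv hP).mono hP (by omega)

/-- insert one new representative -/
theorem insert_one [DecidableEq N] (hP : CostP P) (h : Full P I K Y) (hY : 4 ≤ Y.card)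
    {c p q : N} {M : ℕ}
    (hc : ∀ y ∈ Y, c⁻¹ * y ∉ I) (hp : p ∈ Y) (hq : q ∈ Y) (hpq : p ≠ q)
    (h1 : Tri P I M c p q) : Full P I (M + 4 * K) (insert c Y) := by
  have h2 := h.spread hP hY hc hp hq hpq h1
  refine ⟨?_, ?_⟩
  · intro x hx y hy hxy
    rw [Finset.mem_insert] at hx hy
    rcases hx with rfl | hx <;> rcases hy with rfl | hy
    · rfl
    · exact absurd hxy (hc y hy)
    · exact absurd (inv_mem_of hxy) (hc x hx)
    · exact h.sep x hx y hy hxy
  · intro x hx y hy z hz hxy hyz hzx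
    rw [Finset.mem_insert] at hx hy hz
    rcases hx with rfl | hx
    · rcases hy with rfl | hy
      · exact absurd rfl hxy
      rcases hz with rfl | hz
      · exact absurd rfl hzx
      exact h2 y hy z hz hyz
    · rcases hy with rfl | hy
      · rcases hz with rfl | hz
        · exact absurd rfl hyz
        exact (h2 z hz x hx hzx).rot.rot
      · rcases hz with rfl | hz
        · exact (h2 x hx y hy hxy).rot
        · exact (h.tri x hx y hy z hz hxy hyz hzx).mono hP (by omega)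

/-- growth, case of a common second block: `d = y' i` -/
theorem grow_two [DecidableEq N] (hP : CostP P) (h : Full P I K Y) (hY : 4 ≤ Y.card)
    {y y' c i : N} (hy : y ∈ Y) (hy' : y' ∈ Y) (hi : i ∈ I)
    (hc : ∀ z ∈ Y, c⁻¹ * z ∉ I) (h1 : Tri P I L y c (y' * i)) :
    Full P I (3 * L + 8 * K) (insert (c * i⁻¹) Y) := by
  have hyy : y ≠ y' := by
    rintro rfl
    obtain ⟨θ, _, h2⟩ := h1
    apply h2.zx
    rw [mul_inv_rev, inv_mul_cancel_right]; exact I.inv_mem hi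
  obtain ⟨a, ha, a1, a2, -⟩ := exists_fourth hY y y' y
  obtain ⟨b, hb, b1, b2, b3⟩ := exists_fourth hY y y' a
  have key : ∀ z ∈ Y, z ≠ y → y⁻¹ * (z * i) ∉ I := by
    intro z hz hzy h'
    rw [← mul_assoc] at h'
    exact hzy (h.sep y hy z hz ((I.mul_mem_cancel_right hi).1 h')).symm
  have keyc : ∀ z ∈ Y, c⁻¹ * (z * i) ∉ I := by
    intro z hz h'
    rw [← mul_assoc] at h'
    exact hc z hz ((I.mul_mem_cancel_right hi).1 h')
  -- `<y, c, a i>`
  have h2 : Tri P I (2 * K + L) y c (a * i) :=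
    h1.move hP ((h.tri y' hy' a ha b hb a2.symm b3.symm b2).shift hi)
      (key a ha a1) (key b hb b1) (keyc a ha) (keyc b hb)
  -- `<c, y' i, a i>`
  have h3 : Tri P I (L + 2 * (2 * K + L)) c (y' * i) (a * i) := by
    refine Tri.two hP h1.rot h2.rot ?_
    intro h'
    apply h.ne hy' ha a2.symm
    have := I.mul_mem (I.mul_mem hi h') (I.inv_mem hi)
    simpa [mul_assoc] using this
  have h4 := h3.shift (I.inv_mem hi)
  rw [mul_inv_cancel_right, mul_inv_cancel_right] at h4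
  have hc' : ∀ z ∈ Y, (c * i⁻¹)⁻¹ * z ∉ I := by
    intro z hz h'
    rw [mul_inv_rev, inv_inv, mul_assoc] at h'
    exact hc z hz ((I.mul_mem_cancel_left hi).1 h')
  exact (h.insert_one hP hY hc' hy' ha a2.symm h4).mono hP (by omega)

/-- growth, case of one common block -/
theorem grow_one [DecidableEq N] (hP : CostP P) (h : Full P I K Y) (hY : 4 ≤ Y.card)
    {y c d : N} (hy : y ∈ Y)
    (hc : ∀ z ∈ Y, c⁻¹ * z ∉ I) (hd : ∀ z ∈ Y, d⁻¹ * z ∉ I) (h1 : Tri P I L y c d) :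
    Full P I (17 * L + 28 * K) (insert d (insert c Y)) := by
  obtain ⟨b, hb, b1, -, -⟩ := exists_fourth hY y y y
  obtain ⟨e, he, e1, e2, -⟩ := exists_fourth hY y b y
  have hcd : c⁻¹ * d ∉ I := by
    obtain ⟨θ, _, h2⟩ := h1
    exact h2.yz
  -- `<y, b, c>`
  have h2 : Tri P I (3 * K + 4 * L) y b c :=
    Tri.one hP h1 (h.tri y hy b hb e he b1.symm e2.symm e1)
      (inv_notMem_of (hc b hb)) (inv_notMem_of (hd b hb)) (hc e he) (hd e he)
  have h3 := h.insert_one hP hY hc hy hb b1.symm h2.rot.rot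
  have hY' : 4 ≤ (insert c Y).card := hY.trans (Finset.card_le_card (Finset.subset_insert _ _))
  have hd' : ∀ z ∈ insert c Y, d⁻¹ * z ∉ I := by
    intro z hz
    rw [Finset.mem_insert] at hz
    rcases hz with rfl | hz
    · exact inv_notMem_of hcd
    · exact hd z hz
  have hyc : y ≠ c := by
    rintro rfl
    apply hc y hy
    simp
  have h4 := h3.insert_one hP hY' hd' (Finset.mem_insert_of_mem hy) (Finset.mem_insert_self _ _)
    hyc h1.rot.rot
  exact h4.mono hP (by omega)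

end Full

end Pool.Agent.Lib.MP_688fd0_co.SQ6.H90
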