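import Mathlib

/-!
Calculus of block three-cycles: permutations of a group `N` which move the left cosets
`x I -> y I -> z I -> x I` (pointwise `x i -> y i -> z i -> x i`) and fix everything else.
-/

namespace Pool.Agent.Lib.MP_688fd0_co.SQ6.H90

open Equiv Equiv.Perm

variable {N : Type*} [Group N]

omit [Group N] in
theorem aii (f : Perm N) (x : N) : f (f⁻¹ x) = x := f.apply_symm_apply x

omit [Group N] in
theorem iai (f : Perm N) (x : N) : f⁻¹ (f x) = x := f.symm_apply_apply x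

/-- `θ` is the block three-cycle `<x, y, z>_I`. -/
structure IsTri (I : Subgroup N) (θ : Perm N) (x y z : N) : Prop where
  xy : x⁻¹ * y ∉ I
  yz : y⁻¹ * z ∉ I
  zx : z⁻¹ * x ∉ I
  hx : ∀ i ∈ I, θ (x * i) = y * i
  hy : ∀ i ∈ I, θ (y * i) = z * i
  hz : ∀ i ∈ I, θ (z * i) = x * i
  fix : ∀ p, x⁻¹ * p ∉ I → y⁻¹ * p ∉ I → z⁻¹ * p ∉ I → θ p = p

theorem inv_mem_of {I : Subgroup N} {x y : N} (h : x⁻¹ * y ∈ I) : y⁻¹ * x ∈ I := by
  have := I.inv_mem h
  simpa [mul_inv_rev] using this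

theorem inv_notMem_of {I : Subgroup N} {x y : N} (h : x⁻¹ * y ∉ I) : y⁻¹ * x ∉ I :=
  fun h' => h (inv_mem_of h')

theorem trans_mem {I : Subgroup N} {x y z : N} (h : x⁻¹ * y ∈ I) (h' : y⁻¹ * z ∈ I) :
    x⁻¹ * z ∈ I := by
  have := I.mul_mem h h'
  simpa [mul_assoc] using this

/-- equivariance under right multiplication by `I` -/
def REq (I : Subgroup N) (g : Perm N) : Prop := ∀ p : N, ∀ i ∈ I, g (p * i) = g p * i

theorem REq.mul {I : Subgroup N} {g h : Perm N} (hg : REq I g) (hh : REq I h) : REq I (g * h) := by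
  intro p i hi
  simp only [Perm.mul_apply]
  rw [hh p i hi, hg _ i hi]

theorem REq.one (I : Subgroup N) : REq I (1 : Perm N) := fun _ _ _ => rfl

theorem REq.inv {I : Subgroup N} {g : Perm N} (hg : REq I g) : REq I g⁻¹ := by
  intro p i hi
  rw [Perm.inv_eq_iff_eq, hg _ i hi]
  simp

theorem REq.mono {I I' : Subgroup N} (h : I' ≤ I) {g : Perm N} (hg : REq I g) : REq I' g :=
  fun p i hi => hg p i (h hi)

theorem REq.inv_mem {I : Subgroup N} {g : Perm N} (hg : REq I g) {x y : N}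
    (h : (g x)⁻¹ * g y ∈ I) : x⁻¹ * y ∈ I := by
  have h1 : g (x * ((g x)⁻¹ * g y)) = g y := by
    rw [hg x _ h]; group
  have h2 := g.injective h1
  rw [← h2]; simpa using h

theorem REq.map_mem {I : Subgroup N} {g : Perm N} (hg : REq I g) {x y : N}
    (h : x⁻¹ * y ∈ I) : (g x)⁻¹ * g y ∈ I := by
  have : g y = g x * (x⁻¹ * y) := by rw [← hg x _ h]; congr 1; group
  rw [this]; simpa using h

namespace IsTri

variable {I : Subgroup N} {θ φ : Perm N} {x y z w : N}

theorem ax (h : IsTri I θ x y z) : θ x = y := by simpa using h.hx 1 I.one_mem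
theorem ay (h : IsTri I θ x y z) : θ y = z := by simpa using h.hy 1 I.one_mem
theorem az (h : IsTri I θ x y z) : θ z = x := by simpa using h.hz 1 I.one_mem

theorem ix (h : IsTri I θ x y z) : θ⁻¹ y = x := by rw [Perm.inv_eq_iff_eq, h.ax]
theorem iy (h : IsTri I θ x y z) : θ⁻¹ z = y := by rw [Perm.inv_eq_iff_eq, h.ay]
theorem iz (h : IsTri I θ x y z) : θ⁻¹ x = z := by rw [Perm.inv_eq_iff_eq, h.az]

theorem rot (h : IsTri I θ x y z) : IsTri I θ y z x :=
  ⟨h.yz, h.zx, h.xy, h.hy, h.hz, h.hx, fun p a b c => h.fix p c a b⟩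

theorem inv (h : IsTri I θ x y z) : IsTri I θ⁻¹ x z y where
  xy := inv_notMem_of h.zx
  yz := inv_notMem_of h.yz
  zx := inv_notMem_of h.xy
  hx := fun i hi => by rw [Perm.inv_eq_iff_eq, h.hz i hi]
  hy := fun i hi => by rw [Perm.inv_eq_iff_eq, h.hy i hi]
  hz := fun i hi => by rw [Perm.inv_eq_iff_eq, h.hx i hi]
  fix := fun p a b c => by rw [Perm.inv_eq_iff_eq, h.fix p a c b]

theorem req (h : IsTri I θ x y z) : REq I θ := by
  intro p i hi
  by_cases h1 : x⁻¹ * p ∈ I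
  · have e : p = x * (x⁻¹ * p) := by group
    rw [e, mul_assoc, h.hx _ (I.mul_mem h1 hi), h.hx _ h1]; group
  by_cases h2 : y⁻¹ * p ∈ I
  · have e : p = y * (y⁻¹ * p) := by group
    rw [e, mul_assoc, h.hy _ (I.mul_mem h2 hi), h.hy _ h2]; group
  by_cases h3 : z⁻¹ * p ∈ I
  · have e : p = z * (z⁻¹ * p) := by group
    rw [e, mul_assoc, h.hz _ (I.mul_mem h3 hi), h.hz _ h3]; group
  · rw [h.fix p h1 h2 h3]
    refine h.fix _ ?_ ?_ ?_
    · intro h'; apply h1; rw [← mul_assoc] at h'; exact (I.mul_mem_cancel_right hi).1 h'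
    · intro h'; apply h2; rw [← mul_assoc] at h'; exact (I.mul_mem_cancel_right hi).1 h'
    · intro h'; apply h3; rw [← mul_assoc] at h'; exact (I.mul_mem_cancel_right hi).1 h'

theorem conj (h : IsTri I θ x y z) {g : Perm N} (hg : REq I g) :
    IsTri I (g * θ * g⁻¹) (g x) (g y) (g z) where
  xy := fun h' => h.xy (hg.inv_mem h')
  yz := fun h' => h.yz (hg.inv_mem h')
  zx := fun h' => h.zx (hg.inv_mem h')
  hx := fun i hi => by
    rw [← hg x i hi, ← hg y i hi]; simp [Perm.mul_apply, h.hx i hi]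
  hy := fun i hi => by
    rw [← hg y i hi, ← hg z i hi]; simp [Perm.mul_apply, h.hy i hi]
  hz := fun i hi => by
    rw [← hg z i hi, ← hg x i hi]; simp [Perm.mul_apply, h.hz i hi]
  fix := fun p a b c => by
    have e : g (g⁻¹ p) = p := by simp
    have hh : θ (g⁻¹ p) = g⁻¹ p := by
      refine h.fix _ ?_ ?_ ?_
      · intro h'; apply a; have := hg.map_mem h'; rwa [e] at this
      · intro h'; apply b; have := hg.map_mem h'; rwa [e] at this
      · intro h'; apply c; have := hg.map_mem h'; rwa [e] at this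
    rw [Perm.mul_apply, Perm.mul_apply, hh, e]

/-- right translation of the three points by `i ∈ I` -/
theorem shift (h : IsTri I θ x y z) {i : N} (hi : i ∈ I) : IsTri I θ (x * i) (y * i) (z * i) where
  xy := fun h' => h.xy (by
    have h2 := I.mul_mem (I.mul_mem hi h') (I.inv_mem hi)
    simpa [mul_assoc] using h2)
  yz := fun h' => h.yz (by
    have h2 := I.mul_mem (I.mul_mem hi h') (I.inv_mem hi)
    simpa [mul_assoc] using h2)
  zx := fun h' => h.zx (by
    have h2 := I.mul_mem (I.mul_mem hi h') (I.inv_mem hi)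
    simpa [mul_assoc] using h2)
  hx := fun j hj => by rw [mul_assoc, h.hx _ (I.mul_mem hi hj), mul_assoc]
  hy := fun j hj => by rw [mul_assoc, h.hy _ (I.mul_mem hi hj), mul_assoc]
  hz := fun j hj => by rw [mul_assoc, h.hz _ (I.mul_mem hi hj), mul_assoc]
  fix := fun p a b c => by
    refine h.fix p ?_ ?_ ?_
    · intro h'; apply a
      have := I.mul_mem (I.inv_mem hi) h'
      simpa [mul_assoc] using this
    · intro h'; apply b
      have := I.mul_mem (I.inv_mem hi) h'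
      simpa [mul_assoc] using this
    · intro h'; apply c
      have := I.mul_mem (I.inv_mem hi) h'
      simpa [mul_assoc] using this

/-- left translation -/
theorem lmul (h : IsTri I θ x y z) (a : N) :
    IsTri I (Equiv.mulLeft a * θ * (Equiv.mulLeft a)⁻¹) (a * x) (a * y) (a * z) := by
  have := h.conj (g := Equiv.mulLeft a) (fun p i _ => by simp [mul_assoc])
  simpa using this

theorem fixw (h : IsTri I θ x y z) (h1 : x⁻¹ * w ∉ I) (h2 : y⁻¹ * w ∉ I) (h3 : z⁻¹ * w ∉ I) :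
    θ w = w := h.fix w h1 h2 h3

end IsTri

/-- Two three-cycles `<a,b,d>`, `<a,c,d>` with two common points give `<a,b,c>`. -/
theorem share_two {I : Subgroup N} {θ φ : Perm N} {a b c d : N}
    (h1 : IsTri I θ a b d) (h2 : IsTri I φ a c d) (hbc : b⁻¹ * c ∉ I) :
    IsTri I (φ * θ⁻¹ * φ⁻¹) a b c := by
  have h3 := h1.inv.conj h2.req
  -- `φ a = c`, `φ d = a`, `φ b = b`
  have hb : φ b = b := h2.fixw h1.xy (inv_notMem_of hbc) (inv_notMem_of h1.yz)
  rw [h2.ax, h2.az, hb] at h3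
  exact h3.rot

/-- Two three-cycles `<a,c,d>`, `<a,b,e>` with one common point (five blocks) give `<a,b,c>`. -/
theorem share_one {I : Subgroup N} {θ φ : Perm N} {a b c d e : N}
    (h1 : IsTri I φ a c d) (h2 : IsTri I θ a b e)
    (hbc : b⁻¹ * c ∉ I) (hbd : b⁻¹ * d ∉ I) (hce : c⁻¹ * e ∉ I) (hde : d⁻¹ * e ∉ I) :
    IsTri I (φ * θ⁻¹ * φ⁻¹ * θ⁻¹ * (φ * θ * φ⁻¹)) a b c := by
  have hb : φ b = b := h1.fixw h2.xy (inv_notMem_of hbc) (inv_notMem_of hbd)
  have he : φ e = e := h1.fixw (inv_notMem_of h2.zx) hce hde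
  have h3 : IsTri I (φ * θ⁻¹ * φ⁻¹) c e b := by
    have := h2.inv.conj h1.req
    rwa [h1.ax, hb, he] at this
  have h4 : IsTri I θ⁻¹ b a e := h2.inv.rot.rot
  have h5 := share_two h4 h3.rot.rot (inv_notMem_of (inv_notMem_of h1.xy))
  have h6 := h5.inv.rot.rot
  have e1 : ((φ * θ⁻¹ * φ⁻¹) * (θ⁻¹)⁻¹ * (φ * θ⁻¹ * φ⁻¹)⁻¹)⁻¹ =
      φ * θ⁻¹ * φ⁻¹ * θ⁻¹ * (φ * θ * φ⁻¹) := by group
  rw [e1] at h6
  exact h6

/-- The twist `<a,b,c> <a,b,c j>⁻¹` : it multiplies the block of `a` by `j`, fixes `b` and the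
blocks outside of `a, b, c`. -/
theorem twist {I : Subgroup N} {θ φ : Perm N} {a b c j : N} (hj : j ∈ I)
    (h1 : IsTri I θ a b c) (h2 : IsTri I φ a b (c * j)) :
    (θ * φ⁻¹) a = a * j ∧ (θ * φ⁻¹) b = b ∧ (θ * φ⁻¹) c = c * j⁻¹ ∧
      (∀ w, a⁻¹ * w ∉ I → b⁻¹ * w ∉ I → c⁻¹ * w ∉ I → (θ * φ⁻¹) w = w) ∧ REq I (θ * φ⁻¹) := by
  refine ⟨?_, ?_, ?_, ?_, h1.req.mul h2.req.inv⟩
  · rw [Perm.mul_apply, h2.iz, h1.hz j hj]
  · rw [Perm.mul_apply, h2.ix, h1.ax]
  · have e : c = c * j * j⁻¹ := by group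
    have e2 : φ⁻¹ c = b * j⁻¹ := by
      conv_lhs => rw [e]
      rw [h2.req.inv _ _ (I.inv_mem hj), h2.iy]
    rw [Perm.mul_apply, e2, h1.hy _ (I.inv_mem hj)]
  · intro w ha hb hc
    rw [Perm.mul_apply]
    have : φ⁻¹ w = w := by
      rw [Perm.inv_eq_iff_eq]
      refine (h2.fixw ha hb ?_).symm
      intro h'
      apply hc
      have := I.mul_mem hj h'
      simpa [mul_assoc] using this
    rw [this, h1.fixw ha hb hc]

/-- The commutator of two permutations whose supports meet in the block of `x` only. -/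
theorem comm_tri {I : Subgroup N} {α β : Perm N} {x y z : N} (A B : Set N)
    (hA : ∀ p, p ∉ A → α p = p) (hB : ∀ p, p ∉ B → β p = p)
    (hAB : ∀ p, p ∈ A → p ∈ B → x⁻¹ * p ∈ I)
    (xy : x⁻¹ * y ∉ I) (yz : y⁻¹ * z ∉ I) (zx : z⁻¹ * x ∉ I)
    (hx : ∀ i ∈ I, α (x * i) = y * i) (hz : ∀ i ∈ I, β (x * i) = z * i)
    (hyB : ∀ i ∈ I, y * i ∉ B) (hzA : ∀ i ∈ I, z * i ∉ A)
    (hyB' : ∀ i ∈ I, α⁻¹ (x * i) ∉ B) (hzA' : ∀ i ∈ I, β⁻¹ (x * i) ∉ A) :
    IsTri I (α * β * α⁻¹ * β⁻¹) x y z := by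
  have hA' : ∀ p, p ∉ A → α⁻¹ p = p := fun p hp => by rw [Perm.inv_eq_iff_eq, hA p hp]
  have hB' : ∀ p, p ∉ B → β⁻¹ p = p := fun p hp => by rw [Perm.inv_eq_iff_eq, hB p hp]
  refine ⟨xy, yz, zx, ?_, ?_, ?_, ?_⟩
  · intro i hi
    simp only [Perm.mul_apply]
    rw [hA' _ (hzA' i hi), aii, hx i hi]
  · intro i hi
    simp only [Perm.mul_apply]
    have e1 : α⁻¹ (y * i) = x * i := by rw [Perm.inv_eq_iff_eq, hx i hi]
    rw [hB' _ (hyB i hi), e1, hz i hi, hA _ (hzA i hi)]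
  · intro i hi
    simp only [Perm.mul_apply]
    have e1 : β⁻¹ (z * i) = x * i := by rw [Perm.inv_eq_iff_eq, hz i hi]
    rw [e1, hB _ (hyB' i hi), aii]
  · intro p h1 h2 h3
    simp only [Perm.mul_apply]
    by_cases hpB : p ∈ B
    · by_cases hqA : β⁻¹ p ∈ A
      · exfalso
        have hqB : β⁻¹ p ∈ B := by
          by_contra hq
          have := hB _ hq
          rw [aii] at this
          rw [← this] at hq
          exact hq hpB
        have hq := hAB _ hqA hqB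
        have e : β (x * (x⁻¹ * β⁻¹ p)) = z * (x⁻¹ * β⁻¹ p) := hz _ hq
        rw [mul_inv_cancel_left, aii] at e
        apply h3
        rw [e]; simpa using hq
      · rw [hA' _ hqA, aii]
        refine hA _ fun hpA => h1 (hAB _ hpA hpB)
    · rw [hB' _ hpB]
      by_cases hpA : p ∈ A
      · have hrA : α⁻¹ p ∈ A := by
          by_contra hq
          have := hA _ hq
          rw [aii] at this
          rw [← this] at hq
          exact hq hpA
        have hrB : α⁻¹ p ∉ B := by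
          intro hrB
          have hq := hAB _ hrA hrB
          have e : α (x * (x⁻¹ * α⁻¹ p)) = y * (x⁻¹ * α⁻¹ p) := hx _ hq
          rw [mul_inv_cancel_left, aii] at e
          apply h2
          rw [e]; simpa using hq
        rw [hB _ hrB, aii]
      · rw [hA' _ hpA, hB _ hpB, hA _ hpA]

end Pool.Agent.Lib.MP_688fd0_co.SQ6.H90
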